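import Pool.Agent.T6.H15.MS.Chain

/-!
# Arithmetic circuits for the equations of a closed set
-/

set_option autoImplicit false

open MvPolynomial

namespace Pool.Agent.T6.H15.MS

open Pool.Agent.T6.H15.ZP Pool.Agent.T6.H15.MZ

variable {κ : Type}

/-- Variables, constants from `A`, and sums and products of the pairs in `S`. -/
def Known (A : Set ℂ) (S : Set (MvPolynomial κ ℂ × MvPolynomial κ ℂ)) (f : MvPolynomial κ ℂ) :
    Prop :=
  (∃ a, f = X a) ∨ (∃ c ∈ A, f = C c) ∨ (∃ g ∈ S, f = g.1 + g.2) ∨ ∃ g ∈ S, f = g.1 * g.2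

theorem Known.mono {A : Set ℂ} {S S' : Set (MvPolynomial κ ℂ × MvPolynomial κ ℂ)}
    {f : MvPolynomial κ ℂ} (h : Known A S f) (hS : S ⊆ S') : Known A S' f := by
  rcases h with h | h | ⟨g, hg, h⟩ | ⟨g, hg, h⟩
  · exact Or.inl h
  · exact Or.inr (Or.inl h)
  · exact Or.inr (Or.inr (Or.inl ⟨g, hS hg, h⟩))
  · exact Or.inr (Or.inr (Or.inr ⟨g, hS hg, h⟩))

/-- Circuits, whose inputs have the property `D`. -/
inductive Built (A : Set ℂ) (D : MvPolynomial κ ℂ → Prop) :
    Set (MvPolynomial κ ℂ × MvPolynomial κ ℂ) → Prop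
  | empty : Built A D ∅
  | insert (S : Set (MvPolynomial κ ℂ × MvPolynomial κ ℂ))
      (g : MvPolynomial κ ℂ × MvPolynomial κ ℂ) (hS : Built A D S) (h1 : Known A S g.1)
      (h2 : Known A S g.2) (h3 : D g.1) (h4 : D g.2) : Built A D (insert g S)

variable {A : Set ℂ} {D : MvPolynomial κ ℂ → Prop}

theorem Built.finite {S : Set (MvPolynomial κ ℂ × MvPolynomial κ ℂ)} (h : Built A D S) :
    S.Finite := by
  induction h with
  | empty => exact Set.finite_empty
  | insert S g hS h1 h2 h3 h4 ih => exact ih.insert g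

theorem Built.good {S : Set (MvPolynomial κ ℂ × MvPolynomial κ ℂ)} (h : Built A D S) :
    ∀ g ∈ S, D g.1 ∧ D g.2 := by
  induction h with
  | empty => exact fun g hg => hg.elim
  | insert S g hS h1 h2 h3 h4 ih =>
    rintro g' (rfl | hg')
    · exact ⟨h3, h4⟩
    · exact ih g' hg'

theorem Built.union {S S' : Set (MvPolynomial κ ℂ × MvPolynomial κ ℂ)} (h : Built A D S)
    (h' : Built A D S') : Built A D (S ∪ S') := by
  induction h' with
  | empty => rwa [Set.union_empty]
  | insert S' g hS h1 h2 h3 h4 ih =>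
    rw [Set.union_insert]
    exact Built.insert _ g ih (h1.mono Set.subset_union_right) (h2.mono Set.subset_union_right)
      h3 h4

/-- the polynomials which can be computed -/
def Comp (A : Set ℂ) (D : MvPolynomial κ ℂ → Prop) (f : MvPolynomial κ ℂ) : Prop :=
  ∃ S, Built A D S ∧ Known A S f

theorem Comp.X (a : κ) : Comp A D (X a) := ⟨∅, Built.empty, Or.inl ⟨a, rfl⟩⟩

theorem Comp.C {c : ℂ} (hc : c ∈ A) : Comp A D (C c) :=
  ⟨∅, Built.empty, Or.inr (Or.inl ⟨c, hc, rfl⟩)⟩

theorem Comp.add {f g : MvPolynomial κ ℂ} (hf : Comp A D f) (hg : Comp A D g) (h1 : D f)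
    (h2 : D g) : Comp A D (f + g) := by
  obtain ⟨S, hS, hf⟩ := hf
  obtain ⟨S', hS', hg⟩ := hg
  exact ⟨insert (f, g) (S ∪ S'), Built.insert _ _ (hS.union hS') (hf.mono Set.subset_union_left)
    (hg.mono Set.subset_union_right) h1 h2,
    Or.inr (Or.inr (Or.inl ⟨(f, g), Set.mem_insert _ _, rfl⟩))⟩

theorem Comp.mul {f g : MvPolynomial κ ℂ} (hf : Comp A D f) (hg : Comp A D g) (h1 : D f)
    (h2 : D g) : Comp A D (f * g) := by
  obtain ⟨S, hS, hf⟩ := hf
  obtain ⟨S', hS', hg⟩ := hg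
  exact ⟨insert (f, g) (S ∪ S'), Built.insert _ _ (hS.union hS') (hf.mono Set.subset_union_left)
    (hg.mono Set.subset_union_right) h1 h2,
    Or.inr (Or.inr (Or.inr ⟨(f, g), Set.mem_insert _ _, rfl⟩))⟩

theorem exists_common {L : Set (MvPolynomial κ ℂ)} (hL : L.Finite) (h : ∀ f ∈ L, Comp A D f) :
    ∃ S, Built A D S ∧ ∀ f ∈ L, Known A S f := by
  induction L, hL using Set.Finite.induction_on with
  | empty => exact ⟨∅, Built.empty, fun f hf => hf.elim⟩
  | insert _ _ ih =>
    obtain ⟨S, hS, h1⟩ := ih fun f hf => h f (Set.mem_insert_of_mem _ hf)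
    obtain ⟨S', hS', h2⟩ := h _ (Set.mem_insert _ _)
    refine ⟨S ∪ S', hS.union hS', ?_⟩
    rintro f (rfl | hf)
    · exact h2.mono Set.subset_union_right
    · exact (h1 f hf).mono Set.subset_union_left

/-- Scaling such that no number is in a countable set. -/
theorem exists_scale {I : Type} (J : Set I) (hJ : J.Countable) (a : I → ℂ)
    (ha : ∀ i ∈ J, a i ≠ 0) {B : Set ℂ} (hB : B.Countable) :
    ∃ τ : ℂ, τ ≠ 0 ∧ ∀ i ∈ J, τ * a i ∉ B := by
  have h1 : ({0} ∪ ⋃ i ∈ J, (fun b => b / a i) '' B : Set ℂ).Countable :=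
    (Set.countable_singleton 0).union (Set.Countable.biUnion hJ fun i _ => hB.image _)
  obtain ⟨τ, hτ⟩ : ∃ τ : ℂ, τ ∉ ({0} ∪ ⋃ i ∈ J, (fun b => b / a i) '' B : Set ℂ) := by
    by_contra hcon
    push Not at hcon
    exact not_countable_complex (h1.mono fun t _ => hcon t)
  refine ⟨τ, fun h => hτ (Or.inl h), fun i hi h => hτ (Or.inr ?_)⟩
  simp only [Set.mem_iUnion]
  exact ⟨i, hi, τ * a i, h, by field_simp [ha i hi]⟩

/-- Translation such that no number is in a countable set. -/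
theorem exists_shift (A' : Set ℂ) (hA : A'.Countable) {B : Set ℂ} (hB : B.Countable) :
    ∃ c : ℂ, ∀ a ∈ A', c + a ∉ B := by
  have h1 : (⋃ a ∈ A', (fun b => b - a) '' B : Set ℂ).Countable :=
    Set.Countable.biUnion hA fun i _ => hB.image _
  obtain ⟨c, hc⟩ : ∃ c : ℂ, c ∉ (⋃ a ∈ A', (fun b => b - a) '' B : Set ℂ) := by
    by_contra hcon
    push Not at hcon
    exact not_countable_complex (h1.mono fun t _ => hcon t)
  refine ⟨c, fun a ha h => hc ?_⟩
  simp only [Set.mem_iUnion]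
  exact ⟨a, ha, c + a, h, by ring⟩

/-- The circuit of a closed set. -/
structure Enc (B : Set ℂ) (V : Set (κ → ℂ)) where
  v0 : κ → ℂ
  A : Set ℂ
  S : Set (MvPolynomial κ ℂ × MvPolynomial κ ℂ)
  L : Set (MvPolynomial κ ℂ)
  c0 : ℂ
  hv0 : v0 ∈ V
  hv0B : ∀ a, v0 a ∉ B
  hA : A.Finite
  hAB : ∀ c ∈ A, c ∉ B
  hc0 : c0 ∈ A
  built : Built A (fun f => eval v0 f ∉ B) S
  known : ∀ f ∈ L, Known A S f
  cut : ∀ f ∈ L, ∀ v ∈ V, eval v f = c0
  gen : ∀ x, (∀ f ∈ L, eval x f = c0) → x ∈ V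

theorem exists_enc [Fintype κ] {V : Set (κ → ℂ)} (hV : IsVar V) (hnc : ∀ k a, ∃ v ∈ V, v k ≠ a)
    {B : Set ℂ} (hB : B.Countable) : Nonempty (Enc B V) := by
  classical
  obtain ⟨F, hF⟩ := (isNoetherian_def.1 (inferInstance : IsNoetherian (MvPolynomial κ ℂ)
    (MvPolynomial κ ℂ))) (idealOf V)
  -- the point
  obtain ⟨v0, hv0, hv1⟩ := exists_veryGeneral hV
    (⋃ k : κ, (fun a => MvPolynomial.X k - MvPolynomial.C a) '' (insert 0 B))
    (Set.countable_iUnion fun k => (hB.insert 0).image _) (by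
      intro f hf
      obtain ⟨k, a, -, rfl⟩ := Set.mem_iUnion.1 hf
      obtain ⟨v, hv, hva⟩ := hnc k a
      exact not_mem_of_eval hv (by simpa [sub_eq_zero] using hva))
  have hv2 : ∀ k, v0 k ∉ insert 0 B := by
    intro k hk
    apply hv1 _ (Set.mem_iUnion.2 ⟨k, v0 k, hk, rfl⟩)
    simp
  have hv3 : ∀ k, v0 k ≠ 0 := fun k h => hv2 k (Or.inl h)
  have hmon : ∀ m : κ →₀ ℕ, eval v0 (monomial m (1 : ℂ)) ≠ 0 := by
    intro m
    rw [eval_monomial, one_mul, Finsupp.prod]
    exact Finset.prod_ne_zero_iff.2 fun k _ => pow_ne_zero _ (hv3 k)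
  -- the scaling
  obtain ⟨τ, hτ0, hτ⟩ := exists_scale
    (J := {p : MvPolynomial κ ℂ × (κ →₀ ℕ) × (κ →₀ ℕ) | p.1 ∈ F ∧ p.2.1 ∈ p.1.support}) (by
      have h1 : ((F : Set (MvPolynomial κ ℂ)) ×ˢ
        (Set.univ : Set ((κ →₀ ℕ) × (κ →₀ ℕ)))).Countable :=
        F.countable_toSet.prod (Set.countable_univ)
      refine h1.mono ?_
      rintro p ⟨hp, -⟩
      exact Set.mem_prod.2 ⟨hp, Set.mem_univ _⟩)
    (a := fun p => coeff p.2.1 p.1 * eval v0 (monomial p.2.2 (1 : ℂ))) (by
      rintro p ⟨-, hp⟩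
      exact mul_ne_zero (mem_support_iff.1 hp) (hmon _)) hB
  -- the partial sums
  let ps : MvPolynomial κ ℂ → Finset (κ →₀ ℕ) → MvPolynomial κ ℂ := fun f s =>
    ∑ m ∈ s, monomial m (τ * coeff m f)
  obtain ⟨c1, hc1⟩ : ∃ c1 : ℂ, (∀ a ∈ insert 0
    ((fun p : MvPolynomial κ ℂ × Finset (κ →₀ ℕ) => eval v0 (ps p.1 p.2)) ''
      ((F : Set (MvPolynomial κ ℂ)) ×ˢ (Set.univ : Set (Finset (κ →₀ ℕ))))), c1 + a ∉ B) :=
    exists_shift _ (((F.countable_toSet.prod Set.countable_univ).image _).insert 0) hB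
  let A : Set ℂ := insert c1 (⋃ f ∈ F, ⋃ m ∈ f.support, {τ * coeff m f})
  have hAfin : A.Finite := by
    refine Set.Finite.insert _ (Set.Finite.biUnion F.finite_toSet fun f _ => ?_)
    exact Set.Finite.biUnion f.support.finite_toSet fun m _ => Set.finite_singleton _
  have hAc : ∀ f ∈ F, ∀ m ∈ f.support, τ * coeff m f ∈ A := by
    intro f hf m hm
    right
    simp only [Set.mem_iUnion]
    exact ⟨f, hf, m, hm, rfl⟩
  have hAB : ∀ c ∈ A, c ∉ B := by
    rintro c (rfl | hc)
    · have := hc1 0 (Or.inl rfl)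
      rwa [add_zero] at this
    · simp only [Set.mem_iUnion] at hc
      obtain ⟨f, hf, m, hm, rfl⟩ := hc
      have h1 := hτ (f, m, 0) ⟨hf, hm⟩
      simpa using h1
  set D : MvPolynomial κ ℂ → Prop := fun f => eval v0 f ∉ B with hD
  -- the monomials
  have hgm : ∀ f ∈ F, ∀ m ∈ f.support, ∀ m' : κ →₀ ℕ, D (monomial m' (τ * coeff m f)) := by
    intro f hf m hm m'
    have h1 := hτ (f, m, m') ⟨hf, hm⟩
    have h2 : eval v0 (monomial m' (τ * coeff m f)) =
        τ * (coeff m f * eval v0 (monomial m' (1 : ℂ))) := by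
      rw [eval_monomial, eval_monomial]
      ring
    show eval v0 (monomial m' (τ * coeff m f)) ∉ B
    rw [h2]
    exact h1
  have hcm : ∀ f ∈ F, ∀ m ∈ f.support, ∀ m' : κ →₀ ℕ,
      Comp A D (monomial m' (τ * coeff m f)) := by
    intro f hf m hm m'
    induction m' using Finsupp.induction with
    | zero => exact Comp.C (hAc f hf m hm)
    | single_add a b m' _ _ ih =>
      clear * - ih hgm hf hm hv2
      induction b with
      | zero => rwa [Finsupp.single_zero, zero_add]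
      | succ b ihb =>
        have h1 : (monomial (Finsupp.single a (b + 1) + m') (τ * coeff m f) : MvPolynomial κ ℂ) =
            X a * monomial (Finsupp.single a b + m') (τ * coeff m f) := by
          rw [MvPolynomial.X, monomial_mul, one_mul, Finsupp.single_add]
          congr 1
          rw [add_comm (Finsupp.single a b) (Finsupp.single a 1), add_assoc]
        rw [h1]
        refine Comp.mul (Comp.X a) ihb ?_ (hgm f hf m hm _)
        show eval v0 (X a) ∉ B
        rw [eval_X]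
        exact fun h => hv2 a (Or.inr h)
  have hcs : ∀ f ∈ F, ∀ s ⊆ f.support, Comp A D (MvPolynomial.C c1 + ps f s) := by
    intro f hf s
    induction s using Finset.induction_on with
    | empty =>
      intro _
      have h1 : (MvPolynomial.C c1 + ps f ∅ : MvPolynomial κ ℂ) = MvPolynomial.C c1 := by
        simp [ps]
      rw [h1]
      exact Comp.C (Set.mem_insert _ _)
    | insert m s hm ih =>
      intro hs
      have hms : m ∈ f.support := hs (Finset.mem_insert_self m s)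
      have hss : s ⊆ f.support := (Finset.subset_insert m s).trans hs
      have h1 : (MvPolynomial.C c1 + ps f (insert m s) : MvPolynomial κ ℂ) =
          (MvPolynomial.C c1 + ps f s) + monomial m (τ * coeff m f) := by
        simp only [ps, Finset.sum_insert hm]
        ring
      rw [h1]
      refine Comp.add (ih hss) (hcm f hf m hms m) ?_ (hgm f hf m hms m)
      show eval v0 (MvPolynomial.C c1 + ps f s) ∉ B
      rw [map_add, eval_C]
      exact hc1 _ (Or.inr ⟨(f, s), ⟨hf, Set.mem_univ _⟩, rfl⟩)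
  have hps : ∀ f, ps f f.support = MvPolynomial.C τ * f := by
    intro f
    show ∑ m ∈ f.support, monomial m (τ * coeff m f) = _
    conv_rhs => rw [← support_sum_monomial_coeff f]
    rw [Finset.mul_sum]
    refine Finset.sum_congr rfl fun m _ => ?_
    rw [C_mul_monomial]
  obtain ⟨S, hS, hL⟩ := exists_common (A := A) (D := D)
    (L := (fun f => MvPolynomial.C c1 + ps f f.support) '' (F : Set (MvPolynomial κ ℂ)))
    (F.finite_toSet.image _) (by
      rintro _ ⟨f, hf, rfl⟩
      exact hcs f hf _ subset_rfl)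
  have hev : ∀ (x : κ → ℂ) f, eval x (MvPolynomial.C c1 + ps f f.support) =
      c1 + τ * eval x f := by
    intro x f
    rw [hps, map_add, map_mul, eval_C, eval_C]
  refine ⟨⟨v0, A, S, _, c1, hv0, fun a h => hv2 a (Or.inr h), hAfin, hAB, Set.mem_insert _ _,
    hS, hL, ?_, ?_⟩⟩
  · rintro _ ⟨f, hf, rfl⟩ v hv
    dsimp only
    have h1 : f ∈ idealOf V := by
      rw [← hF]
      exact Ideal.subset_span hf
    rw [hev, mem_idealOf.1 h1 v hv, mul_zero, add_zero]
  · intro x hx
    apply hV.closed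
    have h2 : idealOf V ≤ RingHom.ker (eval x : MvPolynomial κ ℂ →+* ℂ) := by
      rw [← hF]
      show Ideal.span _ ≤ _
      rw [Ideal.span_le]
      intro f hf
      have h1 := hx _ ⟨f, hf, rfl⟩
      dsimp only at h1
      rw [hev] at h1
      have h3 : τ * eval x f = 0 := by linear_combination h1
      exact (mul_eq_zero.1 h3).resolve_left hτ0
    intro f hf
    exact h2 hf

end Pool.Agent.T6.H15.MS
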