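import Pool.Agent.T6.H15.MS.Pw
import Pool.Agent.T6.H15.MS.Circ

/-!
# The map from a fibred power to a power of the surface `(x, y, x + y, x y)`
-/

set_option autoImplicit false

open MvPolynomial

namespace Pool.Agent.T6.H15.MS

open Pool.Agent.T6.H15.ZP Pool.Agent.T6.H15.MZ

/-! ### Polynomial maps -/

section Graph

variable {ι τ : Type}

theorem eval_bind (w : ι → ℂ) (F : τ → MvPolynomial ι ℂ) (p : MvPolynomial τ ℂ) :
    eval w (bind₁ F p) = eval (fun z => eval w (F z)) p := by
  rw [← aeval_eq_eval, aeval_bind₁, ← aeval_eq_eval]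

theorem mem_ideal_poly {W : Set (ι → ℂ)} {F : τ → MvPolynomial ι ℂ} {p : MvPolynomial τ ℂ} :
    p ∈ idealOf ((fun w z => eval w (F z)) '' W) ↔ bind₁ F p ∈ idealOf W := by
  rw [mem_idealOf, mem_idealOf]
  constructor
  · intro h w hw
    rw [eval_bind]
    exact h _ ⟨w, hw, rfl⟩
  · rintro h _ ⟨w, hw, rfl⟩
    have := h w hw
    rwa [eval_bind] at this

theorem irred_poly {W : Set (ι → ℂ)} (hW : Irred W) (F : τ → MvPolynomial ι ℂ) :
    Irred ((fun w z => eval w (F z)) '' W) := by
  rw [irred_iff] at hW ⊢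
  refine ⟨hW.1.image _, fun p q hp hq hpq => ?_⟩
  rw [mem_ideal_poly] at hp hq hpq
  rw [map_mul] at hpq
  exact hW.2 _ _ hp hq hpq

theorem isVar_graph {W : Set (ι → ℂ)} (hW : IsVar W) (F : τ → MvPolynomial ι ℂ) (π : ι → τ)
    (hπ : ∀ w ∈ W, ∀ i, eval w (F (π i)) = w i) :
    IsVar ((fun w z => eval w (F z)) '' W) := by
  refine ⟨irred_poly hW.irred F, fun z hz => ?_⟩
  have h0 : ∀ w ∈ W, (fun i => eval w (F (π i))) = w := fun w hw => funext (hπ w hw)
  refine ⟨fun i => z (π i), hW.closed _ fun g hg => ?_, ?_⟩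
  · have h1 := hz (rename π g) (by
      rw [mem_idealOf]
      rintro _ ⟨w, hw, rfl⟩
      rw [eval_rename]
      have h2 : ((fun z => eval w (F z)) ∘ π) = w := h0 w hw
      rw [h2]
      exact mem_idealOf.1 hg w hw)
    rw [eval_rename] at h1
    exact h1
  · funext ζ
    have h1 := hz (X ζ - rename π (F ζ)) (by
      rw [mem_idealOf]
      rintro _ ⟨w, hw, rfl⟩
      rw [map_sub, eval_X, eval_rename]
      have h2 : ((fun z => eval w (F z)) ∘ π) = w := h0 w hw
      rw [h2, sub_self])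
    rw [map_sub, eval_X, eval_rename, sub_eq_zero] at h1
    exact h1.symm

/-- Coordinates which are polynomials in others do not contribute to the dimension. -/
theorem dim_le_img [Fintype ι] [Fintype τ] {X : Set (τ → ℂ)} (hX : Irred X) (F : τ → MvPolynomial ι ℂ)
    (π : ι → τ) (hF : ∀ x ∈ X, ∀ z, x z = eval (fun i => x (π i)) (F z)) :
    dim X ≤ dim (img π X) := by
  classical
  have hp : (idealOf X).IsPrime := hX
  obtain ⟨S, hS1, hS2, hS3⟩ := exists_indep_in hX (Set.range π) (by
    intro i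
    set z : τ → MvPolynomial τ ℂ ⧸ idealOf X :=
      fun i => Ideal.Quotient.mk (idealOf X) (MvPolynomial.X i) with hz
    set A := Algebra.adjoin ℂ (z '' Set.range π) with hA
    have h1 : ∀ p : MvPolynomial ι ℂ, Ideal.Quotient.mk (idealOf X) (rename π p) ∈ A := by
      intro p
      induction p using MvPolynomial.induction_on with
      | C c =>
        rw [rename_C]
        exact A.algebraMap_mem c
      | add p q hp hq =>
        rw [map_add, map_add]
        exact A.add_mem hp hq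
      | mul_X p i hp =>
        rw [map_mul, map_mul, rename_X]
        exact A.mul_mem hp (Algebra.subset_adjoin ⟨π i, ⟨i, rfl⟩, rfl⟩)
    have h2 : Ideal.Quotient.mk (idealOf X) (MvPolynomial.X i) =
        Ideal.Quotient.mk (idealOf X) (rename π (F i)) := by
      rw [Ideal.Quotient.eq, mem_idealOf]
      intro x hx
      rw [map_sub, eval_X, eval_rename, hF x hx i, sub_eq_zero]
      rfl
    show IsAlgebraic A (Ideal.Quotient.mk (idealOf X) (MvPolynomial.X i))
    rw [h2]
    exact isAlgebraic_algebraMap (⟨_, h1 (F i)⟩ : A))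
  have hc : ∀ i : S, ∃ x : ι, π x = (i : τ) := fun i => hS1 i i.2
  choose c hc using hc
  have h1 : Indep X (fun i : S => π (c i)) := by
    have h2 : (fun i : S => π (c i)) = fun i : S => (i : τ) := funext hc
    rw [h2]
    exact hS2
  have h2 := (Indep.img' h1).card_le (irred_img hX)
  rw [Fintype.card_coe, hS3] at h2
  exact h2

end Graph

/-! ### The surface -/

/-- The power of the surface `(x, y, x + y, x y)`. -/
def surf (κ : Type) : Set (κ × Fin 4 → ℂ) :=
  {z | ∀ i, z (i, 2) = z (i, 0) + z (i, 1) ∧ z (i, 3) = z (i, 0) * z (i, 1)}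

/-- The four coordinates of a point of the surface. -/
noncomputable def out {σ : Type} (g : MvPolynomial σ ℂ × MvPolynomial σ ℂ) :
    Fin 4 → MvPolynomial σ ℂ
  | 0 => g.1
  | 1 => g.2
  | 2 => g.1 + g.2
  | 3 => g.1 * g.2

theorem out_zero {σ : Type} (g : MvPolynomial σ ℂ × MvPolynomial σ ℂ) : out g 0 = g.1 := by
  rw [out]

theorem out_one {σ : Type} (g : MvPolynomial σ ℂ × MvPolynomial σ ℂ) : out g 1 = g.2 := by
  rw [out]

theorem out_two {σ : Type} (g : MvPolynomial σ ℂ × MvPolynomial σ ℂ) : out g 2 = g.1 + g.2 := by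
  rw [out]

theorem out_three {σ : Type} (g : MvPolynomial σ ℂ × MvPolynomial σ ℂ) : out g 3 = g.1 * g.2 := by
  rw [out]

theorem surf_out {κ σ : Type} {y : κ × Fin 4 → ℂ} (hy : y ∈ surf κ) {i : κ}
    {g : MvPolynomial σ ℂ × MvPolynomial σ ℂ} {w : σ → ℂ} (h0 : y (i, 0) = eval w g.1)
    (h1 : y (i, 1) = eval w g.2) (l : Fin 4) : y (i, l) = eval w (out g l) := by
  obtain ⟨h2, h3⟩ := hy i
  have hl : l = 0 ∨ l = 1 ∨ l = 2 ∨ l = 3 := by
    fin_cases l <;> simp
  rcases hl with rfl | rfl | rfl | rfl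
  · rw [out_zero, h0]
  · rw [out_one, h1]
  · rw [out_two, h2, h0, h1, map_add]
  · rw [out_three, h3, h0, h1, map_mul]

/-- The index set of the factors. -/
abbrev Ix (Q T : Type) {κ : Type} {B : Set ℂ} {V : Set (κ → ℂ)} (E : Enc B V) : Type :=
  Q ⊕ (T × (κ ⊕ E.S))

section Map

variable {R : ℂ → ℂ → Prop} {G : Set ℂ} {μ κ ι T Q : Type} {B : Set ℂ} {V : Set (κ → ℂ)}

noncomputable instance (E : Enc B V) : Fintype E.S := E.built.finite.fintype

section Def

variable (s : Q → ℂ) (copy : T → κ → ι) (E : Enc B V)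

/-- The pairs of the factors. -/
noncomputable def pr : Ix Q T E → MvPolynomial ι ℂ × MvPolynomial ι ℂ
  | Sum.inl q => (C (s q), C (s q))
  | Sum.inr (t, Sum.inl a) => (X (copy t a), X (copy t a))
  | Sum.inr (t, Sum.inr g) => (rename (copy t) g.1.1, rename (copy t) g.1.2)

/-- The polynomials which define the map. -/
noncomputable def fmap (z : Ix Q T E × Fin 4) : MvPolynomial ι ℂ := out (pr s copy E z.1) z.2

/-- the map -/
noncomputable def phi (w : ι → ℂ) : Ix Q T E × Fin 4 → ℂ := fun z => eval w (fmap s copy E z)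

theorem phi_apply (w : ι → ℂ) (z : Ix Q T E × Fin 4) :
    phi s copy E w z = eval w (fmap s copy E z) := rfl

theorem phi_mem (w : ι → ℂ) : phi s copy E w ∈ surf (Ix Q T E) := by
  intro i
  unfold phi fmap
  constructor
  · rw [out_zero, out_one, out_two, map_add]
  · rw [out_zero, out_one, out_three, map_mul]

theorem fmap_inl_zero (q : Q) : fmap s copy E (Sum.inl q, 0) = C (s q) := by
  unfold fmap
  rw [out_zero, pr]

theorem fmap_x_zero (t : T) (a : κ) :
    fmap s copy E (Sum.inr (t, Sum.inl a), 0) = X (copy t a) := by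
  unfold fmap
  rw [out_zero, pr]

theorem fmap_g (t : T) (g : E.S) (l : Fin 4) : fmap s copy E (Sum.inr (t, Sum.inr g), l) =
    out (rename (copy t) g.1.1, rename (copy t) g.1.2) l := by
  unfold fmap
  rw [pr]

/-- the coordinates -/
def pi (γ : μ → Q) (idx : ι → μ ⊕ (T × κ)) (E : Enc B V) : ι → Ix Q T E × Fin 4 :=
  fun x => match idx x with
    | Sum.inl m => (Sum.inl (γ m), 0)
    | Sum.inr (t, a) => (Sum.inr (t, Sum.inl a), 0)

end Def

/-- The parameters contain the constant coordinates and the constants of the circuit. -/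
structure Par (c : μ → ℂ) (E : Enc B V) (s : Q → ℂ) (γ : μ → Q) : Prop where
  hc : ∀ m, s (γ m) = c m
  hA : ∀ a ∈ E.A, ∃ q, s q = a

variable [Fintype μ] [Fintype κ] [Fintype ι] [Fintype T] {k : ℕ} {c : μ → ℂ}
  {β : μ → ι} {copy : T → κ → ι} {idx : ι → μ ⊕ (T × κ)} {W : Set (ι → ℂ)}
  {E : Enc B V} {s : Q → ℂ} {γ : μ → Q}

theorem pi_β (hP : Pow R G k c V β copy idx W) (m : μ) :
    pi γ idx E (β m) = (Sum.inl (γ m), 0) := by
  unfold pi
  rw [hP.idxβ]

theorem pi_copy (hP : Pow R G k c V β copy idx W) (t : T) (a : κ) :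
    pi γ idx E (copy t a) = (Sum.inr (t, Sum.inl a), 0) := by
  unfold pi
  rw [hP.idxc]

theorem phi_pi (hP : Pow R G k c V β copy idx W) (hγ : Par c E s γ) {w : ι → ℂ} (hw : w ∈ W)
    (x : ι) : phi s copy E w (pi γ idx E x) = w x := by
  rw [phi_apply]
  rcases hP.cases x with ⟨i, rfl⟩ | ⟨t, a, rfl⟩
  · rw [pi_β hP, fmap_inl_zero, eval_C, hγ.hc, hP.pow.base w hw]
  · rw [pi_copy hP, fmap_x_zero, eval_X]

theorem phi_pi' (hP : Pow R G k c V β copy idx W) (hγ : Par c E s γ) {w : ι → ℂ} (hw : w ∈ W) :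
    (fun x => phi s copy E w (pi γ idx E x)) = w := by
  funext x
  rw [phi_pi hP hγ hw]

theorem isVar_image (hP : Pow R G k c V β copy idx W) (hγ : Par c E s γ) :
    IsVar (phi s copy E '' W) := by
  refine isVar_graph (F := fmap s copy E) hP.pow.var (pi γ idx E) ?_
  intro w hw i
  rw [← phi_apply]
  exact phi_pi hP hγ hw i

theorem img_image (hP : Pow R G k c V β copy idx W) (hγ : Par c E s γ) :
    img (pi γ idx E) (phi s copy E '' W) = W := by
  unfold img
  rw [Set.image_image]
  ext w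
  constructor
  · rintro ⟨w', hw', h⟩
    dsimp only at h
    rw [phi_pi' hP hγ hw'] at h
    rwa [← h]
  · intro hw
    exact ⟨w, hw, phi_pi' hP hγ hw⟩

theorem dim_image [Fintype Q] (hP : Pow R G k c V β copy idx W) (hγ : Par c E s γ) :
    dim (phi s copy E '' W) ≤ dim W := by
  have h := dim_le_img (isVar_image hP hγ).irred (fmap s copy E) (pi γ idx E) (by
    rintro _ ⟨w, hw, rfl⟩ z
    rw [phi_pi' hP hγ hw, phi_apply])
  rwa [img_image hP hγ] at h

end Map

end Pool.Agent.T6.H15.MS
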