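import Pool.Agent.T6.H15.MS.Phi

/-!
# Bounds for the numbers of classes and dimensions
-/

set_option autoImplicit false

open MvPolynomial

namespace Pool.Agent.T6.H15.MS

open Pool.Agent.T6.H15.ZP Pool.Agent.T6.H15.MZ

variable {R : ℂ → ℂ → Prop} {G : Set ℂ}

/-- Outside of `B` related coordinates which are equal at one point are equal everywhere. -/
def Avoid (R : ℂ → ℂ → Prop) (B : Set ℂ) : Prop :=
  ∀ (ι : Type) [Fintype ι] (Y : Set (ι → ℂ)), IsVar Y → ∀ i j : ι, (∀ y ∈ Y, R (y i) (y j)) →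
    ∀ u ∈ Y, u i = u j → u i ∉ B → ∀ y ∈ Y, y i = y j

/-- Comparison of the numbers of classes of a point and of some of its coordinates. -/
theorem ncl_lower (hR : Corr R G) {τ ι : Type} [Fintype τ] [Fintype ι] {U : Set (τ → ℂ)}
    (hU : IsVar U) (π : ι → τ) (hπ : ∃ u ∈ U, Ind R G (fun i => u (π i)) Finset.univ)
    {u : τ → ℂ} (hu : u ∈ U) :
    ncl R G u + Fintype.card ι ≤ ncl R G (fun i => u (π i)) + gd R G U := by
  classical
  obtain ⟨u0, h0⟩ := exists_gen' hR hU
  obtain ⟨u1, hu1, hind⟩ := hπ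
  have hinj : Function.Injective π := by
    intro i j hij
    refine hind.2 i (Finset.mem_univ i) j (Finset.mem_univ j) ?_
    dsimp only
    rw [hij]
    exact hR.equiv.refl _
  set M : Finset ι := Finset.univ with hM
  have hMc : M.card = Fintype.card ι := Finset.card_univ
  have hind0 : Ind R G u0 (M.map ⟨π, hinj⟩) := by
    constructor
    · intro x hx hG
      obtain ⟨i, hi, rfl⟩ := Finset.mem_map.1 hx
      exact hind.1 i hi (h0.spec' hG hu1)
    · intro x hx y hy hxy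
      obtain ⟨i, hi, rfl⟩ := Finset.mem_map.1 hx
      obtain ⟨j, hj, rfl⟩ := Finset.mem_map.1 hy
      rw [hind.2 i hi j hj (h0.rel' hxy hu1)]
  obtain ⟨T, hMT, hT, hTc, hTn⟩ := exists_transversal hR.toRel hind0
  obtain ⟨S, -, hS, hSc, hSn⟩ :=
    exists_transversal hR.toRel (ind_empty (R := R) (G := G) (fun i => u (π i)))
  have h1 : ncl R G u ≤ (S.map ⟨π, hinj⟩ ∪ (T \ M.map ⟨π, hinj⟩)).card := by
    apply ncl_le_card hR.toRel
    intro z hz
    have hz0 : u0 z ∉ G := fun h => hz (h0.spec' h hu)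
    obtain ⟨t, ht, htz⟩ := hTc z hz0
    have htz' : R (u t) (u z) := h0.rel' htz hu
    by_cases htM : t ∈ M.map ⟨π, hinj⟩
    · obtain ⟨i, hi, rfl⟩ := Finset.mem_map.1 htM
      have h2 : u (π i) ∉ G := fun h => hz (hR.sat _ _ h htz')
      obtain ⟨s, hs, hsi⟩ := hSc i h2
      exact ⟨π s, Finset.mem_union_left _ (Finset.mem_map.2 ⟨s, hs, rfl⟩),
        hR.equiv.trans hsi htz'⟩
    · exact ⟨t, Finset.mem_union_right _ (Finset.mem_sdiff.2 ⟨ht, htM⟩), htz'⟩
  have h2 := Finset.card_union_le (S.map ⟨π, hinj⟩) (T \ M.map ⟨π, hinj⟩)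
  rw [Finset.card_map, hSn, Finset.card_sdiff_of_subset hMT, Finset.card_map, hTn,
    h0.ncl_eq hR.toRel, hMc] at h2
  have h3 := Finset.card_le_card hMT
  rw [Finset.card_map, hTn, h0.ncl_eq hR.toRel, hMc] at h3
  omega

section

variable {μ κ ι T Q : Type} {B : Set ℂ} {V : Set (κ → ℂ)}
  [Fintype μ] [Fintype κ] [Fintype ι] [Fintype T] [Fintype Q] {k : ℕ} {c : μ → ℂ}
  {β : μ → ι} {copy : T → κ → ι} {idx : ι → μ ⊕ (T × κ)} {W : Set (ι → ℂ)}
  {E : Enc B V} {s : Q → ℂ} {γ : μ → Q}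

/-- Points of the image. -/
theorem ncl_image (hR : Corr R G) (hP : Pow R G k c V β copy idx W) (hγ : Par c E s γ)
    {w : ι → ℂ} (hw : w ∈ W) : ncl R G (phi s copy E w) + Fintype.card ι ≤
      ncl R G w + gd R G (phi s copy E '' W) := by
  have h := ncl_lower hR (isVar_image (s := s) (E := E) (γ := γ) hP hγ) (pi γ idx E) (by
    obtain ⟨w', hw', hi⟩ := hP.pow.generic
    refine ⟨_, ⟨w', hw', rfl⟩, ?_⟩
    rw [phi_pi' hP hγ hw']
    exact hi) (u := phi s copy E w) ⟨w, hw, rfl⟩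
  rwa [phi_pi' hP hγ hw] at h

/-- Closed subsets of the power of the surface which contain the image. -/
theorem upper (hR : Corr R G) (hB : Avoid R B) (hP : Pow R G k c V β copy idx W)
    (hγ : Par c E s γ) {Y : Set (Ix Q T E × Fin 4 → ℂ)} (hY : IsVar Y)
    (hYs : Y ⊆ surf (Ix Q T E)) (hUY : phi s copy E '' W ⊆ Y) :
    dim Y + gd R G (phi s copy E '' W) ≤ gd R G Y + dim W + 2 * Fintype.card Q := by
  classical
  have hU : IsVar (phi s copy E '' W) := isVar_image hP hγ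
  set U := phi s copy E '' W with hUdef
  obtain ⟨Y1, a1, a2, a3, a4, a5⟩ := exists_full hR hU _ Y hY hUY le_rfl
  have a6 : gd R G U ≤ gd R G Y1 := gd_mono hR.toRel hU.nonempty a2
  let eq : Q × Fin 2 → MvPolynomial (Ix Q T E × Fin 4) ℂ := fun p =>
    X (Sum.inl p.1, if p.2 = 0 then 0 else 1) - C (s p.1)
  have hphi0 : ∀ w q, phi s copy E w (Sum.inl q, 0) = s q := by
    intro w q
    rw [phi_apply, fmap_inl_zero, eval_C]
  have hphi1 : ∀ w q, phi s copy E w (Sum.inl q, 1) = s q := by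
    intro w q
    rw [phi_apply]
    unfold fmap
    rw [out_one, pr, eval_C]
  obtain ⟨Y2, b1, b2, b3, b4, b5⟩ := krull_finset (Finset.univ : Finset (Q × Fin 2)) eq a1 hU a2 (by
    rintro ⟨q, l⟩ _
    rw [mem_idealOf]
    rintro _ ⟨w, hw, rfl⟩
    show eval _ (X (Sum.inl q, if l = 0 then 0 else 1) - C (s q)) = 0
    rw [map_sub, eval_X, eval_C, sub_eq_zero]
    split_ifs
    · exact hphi0 w q
    · exact hphi1 w q)
  have hpar0 : ∀ y ∈ Y2, ∀ q, y (Sum.inl q, 0) = s q := by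
    intro y hy q
    have h1 := mem_idealOf.1 (b4 (q, 0) (Finset.mem_univ _)) y hy
    have h2 : eq (q, 0) = X (Sum.inl q, 0) - C (s q) := by
      simp [eq]
    rwa [h2, map_sub, eval_X, eval_C, sub_eq_zero] at h1
  have hpar1 : ∀ y ∈ Y2, ∀ q, y (Sum.inl q, 1) = s q := by
    intro y hy q
    have h1 := mem_idealOf.1 (b4 (q, 1) (Finset.mem_univ _)) y hy
    have h2 : eq (q, 1) = X (Sum.inl q, 1) - C (s q) := by
      simp [eq]
    rwa [h2, map_sub, eval_X, eval_C, sub_eq_zero] at h1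
  have hsurf : ∀ y ∈ Y2, y ∈ surf (Ix Q T E) := fun y hy => hYs (a3 (b3 hy))
  -- equal coordinates
  have htr : ∀ z z' : Ix Q T E × Fin 4, (∀ w ∈ W, phi s copy E w z = phi s copy E w z') →
      (∃ w ∈ W, phi s copy E w z ∉ B) → ∀ y ∈ Y2, y z = y z' := by
    rintro z z' h1 ⟨w, hw, h2⟩ y hy
    refine hB _ Y2 b1 z z' (fun y hy => a4.1 z z' ?_ y (b3 hy)) (phi s copy E w)
      (b2 ⟨w, hw, rfl⟩) (h1 w hw) h2 y hy
    rintro _ ⟨w, hw, rfl⟩
    rw [h1 w hw]
    exact hR.equiv.refl _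
  -- known polynomials
  have hcoord : ∀ (t : T) (S0 : Set (MvPolynomial κ ℂ × MvPolynomial κ ℂ)) (h0 : S0 ⊆ E.S),
      ∀ y ∈ Y2, (∀ g (hg : g ∈ S0),
        y (Sum.inr (t, Sum.inr ⟨g, h0 hg⟩), 0) =
          eval (fun a => y (Sum.inr (t, Sum.inl a), 0)) g.1 ∧
        y (Sum.inr (t, Sum.inr ⟨g, h0 hg⟩), 1) =
          eval (fun a => y (Sum.inr (t, Sum.inl a), 0)) g.2) →
      ∀ f, Known E.A S0 f → ∃ z : Ix Q T E × Fin 4,
        (∀ w ∈ W, phi s copy E w z = eval (fun a => w (copy t a)) f) ∧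
        y z = eval (fun a => y (Sum.inr (t, Sum.inl a), 0)) f := by
    intro t S0 h0 y hy hg f hf
    rcases hf with ⟨a, rfl⟩ | ⟨d, hd, rfl⟩ | ⟨g, hgS, rfl⟩ | ⟨g, hgS, rfl⟩
    · refine ⟨(Sum.inr (t, Sum.inl a), 0), fun w hw => ?_, ?_⟩
      · rw [phi_apply, fmap_x_zero, eval_X, eval_X]
      · rw [eval_X]
    · obtain ⟨q, hq⟩ := hγ.hA d hd
      refine ⟨(Sum.inl q, 0), fun w hw => ?_, ?_⟩
      · rw [hphi0, hq, eval_C]
      · rw [hpar0 y hy, hq, eval_C]
    · refine ⟨(Sum.inr (t, Sum.inr ⟨g, h0 hgS⟩), 2), fun w hw => ?_, ?_⟩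
      · rw [phi_apply, fmap_g, out_two, map_add, map_add, eval_rename, eval_rename]
        rfl
      · rw [(hsurf y hy _).1, (hg g hgS).1, (hg g hgS).2, map_add]
    · refine ⟨(Sum.inr (t, Sum.inr ⟨g, h0 hgS⟩), 3), fun w hw => ?_, ?_⟩
      · rw [phi_apply, fmap_g, out_three, map_mul, map_mul, eval_rename, eval_rename]
        rfl
      · rw [(hsurf y hy _).2, (hg g hgS).1, (hg g hgS).2, map_mul]
  -- the gates
  have hgate : ∀ (t : T) (S0 : Set (MvPolynomial κ ℂ × MvPolynomial κ ℂ)),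
      Built E.A (fun f => eval E.v0 f ∉ B) S0 → ∀ (h0 : S0 ⊆ E.S), ∀ y ∈ Y2, ∀ g (hg : g ∈ S0),
        y (Sum.inr (t, Sum.inr ⟨g, h0 hg⟩), 0) =
          eval (fun a => y (Sum.inr (t, Sum.inl a), 0)) g.1 ∧
        y (Sum.inr (t, Sum.inr ⟨g, h0 hg⟩), 1) =
          eval (fun a => y (Sum.inr (t, Sum.inl a), 0)) g.2 := by
    intro t S0 hS0
    induction hS0 with
    | empty => exact fun h0 y hy g hg => hg.elim
    | insert S0 g hS h1 h2 h3 h4 ih =>
      intro h0 y hy g' hg'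
      have h0' : S0 ⊆ E.S := (Set.subset_insert g S0).trans h0
      have hall := ih h0' y hy
      have hgS : g ∈ E.S := h0 (Set.mem_insert g S0)
      obtain ⟨w0, hw0, hw0v⟩ := hP.surj t E.v0 E.hv0
      rcases hg' with rfl | hg'
      · constructor
        · obtain ⟨z, hz1, hz2⟩ := hcoord t S0 h0' y hy hall g'.1 h1
          rw [← hz2]
          refine htr _ _ (fun w hw => ?_) ⟨w0, hw0, ?_⟩ y hy
          · rw [hz1 w hw, phi_apply, fmap_g, out_zero, eval_rename]
            rfl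
          · rw [phi_apply, fmap_g, out_zero, eval_rename]
            have h5 : (w0 ∘ copy t) = E.v0 := hw0v
            rw [h5]
            exact h3
        · obtain ⟨z, hz1, hz2⟩ := hcoord t S0 h0' y hy hall g'.2 h2
          rw [← hz2]
          refine htr _ _ (fun w hw => ?_) ⟨w0, hw0, ?_⟩ y hy
          · rw [hz1 w hw, phi_apply, fmap_g, out_one, eval_rename]
            rfl
          · rw [phi_apply, fmap_g, out_one, eval_rename]
            have h5 : (w0 ∘ copy t) = E.v0 := hw0v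
            rw [h5]
            exact h4
      · exact hall g' hg'
  have hgateS : ∀ (t : T), ∀ y ∈ Y2, ∀ g : E.S,
        y (Sum.inr (t, Sum.inr g), 0) =
          eval (fun a => y (Sum.inr (t, Sum.inl a), 0)) g.1.1 ∧
        y (Sum.inr (t, Sum.inr g), 1) =
          eval (fun a => y (Sum.inr (t, Sum.inl a), 0)) g.1.2 :=
    fun t y hy g => hgate t E.S E.built subset_rfl y hy g.1 g.2
  -- the copies of `V`
  have hcopy : ∀ y ∈ Y2, ∀ t, (fun a => y (Sum.inr (t, Sum.inl a), 0)) ∈ V := by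
    intro y hy t
    apply E.gen
    intro f hf
    obtain ⟨z, hz1, hz2⟩ := hcoord t E.S subset_rfl y hy
      (fun g hg => hgateS t y hy ⟨g, hg⟩) f (E.known f hf)
    obtain ⟨q, hq⟩ := hγ.hA E.c0 E.hc0
    have h1 : ∀ w ∈ W, phi s copy E w z = E.c0 := by
      intro w hw
      rw [hz1 w hw]
      exact E.cut f hf _ (hP.copies w hw t)
    obtain ⟨w0, hw0⟩ := hP.pow.var.nonempty
    have h2 := htr z (Sum.inl q, 0) (fun w hw => by rw [h1 w hw, hphi0, hq])
      ⟨w0, hw0, by rw [h1 w0 hw0]; exact E.hAB _ E.hc0⟩ y hy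
    rw [← hz2, h2, hpar0 y hy, hq]
  have hsub : Y2 ⊆ U := by
    intro y hy
    have hx : ∀ (t : T) (a : κ), y (Sum.inr (t, Sum.inl a), 1) = y (Sum.inr (t, Sum.inl a), 0) := by
      intro t a
      obtain ⟨w0, hw0, hw0v⟩ := hP.surj t E.v0 E.hv0
      refine htr _ _ (fun w hw => ?_) ⟨w0, hw0, ?_⟩ y hy
      · rw [phi_apply, phi_apply, fmap_x_zero]
        unfold fmap
        rw [out_one, pr]
      · rw [phi_apply]
        unfold fmap
        rw [out_one, pr, eval_X]
        have h5 : w0 (copy t a) = E.v0 a := congrFun hw0v a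
        rw [h5]
        exact E.hv0B a
    refine ⟨fun x => y (pi γ idx E x), hP.full _ ?_ ?_, ?_⟩
    · intro m
      rw [pi_β hP, hpar0 y hy, hγ.hc]
    · intro t
      have h1 : (fun a => (fun x => y (pi γ idx E x)) (copy t a)) =
          fun a => y (Sum.inr (t, Sum.inl a), 0) := by
        funext a
        dsimp only
        rw [pi_copy hP]
      rw [h1]
      exact hcopy y hy t
    · have hx' : ∀ t, (fun x => y (pi γ idx E x)) ∘ copy t =
          fun a => y (Sum.inr (t, Sum.inl a), 0) := by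
        intro t
        funext a
        show y (pi γ idx E (copy t a)) = _
        rw [pi_copy hP]
      funext z
      obtain ⟨i, l⟩ := z
      rw [phi_apply]
      unfold fmap
      symm
      rcases i with q | ⟨t, a | g⟩
      · refine surf_out (hsurf y hy) ?_ ?_ l
        · rw [pr, eval_C, hpar0 y hy]
        · rw [pr, eval_C, hpar1 y hy]
      · refine surf_out (hsurf y hy) ?_ ?_ l
        · rw [pr, eval_X, pi_copy hP]
        · rw [pr, eval_X, pi_copy hP, hx]
      · refine surf_out (hsurf y hy) ?_ ?_ l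
        · rw [pr, eval_rename, hx']
          exact (hgateS t y hy g).1
        · rw [pr, eval_rename, hx']
          exact (hgateS t y hy g).2
  have c1 : dim Y2 ≤ dim U := dim_mono_set b1.irred hU.irred hsub
  have c2 : dim U ≤ dim W := dim_image hP hγ
  have c3 : (Finset.univ : Finset (Q × Fin 2)).card = 2 * Fintype.card Q := by
    rw [Finset.card_univ, Fintype.card_prod, Fintype.card_fin, mul_comm]
  omega

end

end Pool.Agent.T6.H15.MS
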