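import Pool.Agent.T6.H15.MZ.Main
import Pool.Agent.R452.SZ.Alg

/-!
# Equalities of coordinates and chains of closed sets
-/

set_option autoImplicit false

open MvPolynomial

namespace Pool.Agent.T6.H15.MS

open Pool.Agent.T6.H15.ZP Pool.Agent.T6.H15.MZ

variable {R : ℂ → ℂ → Prop} {G : Set ℂ}

/-! ### Equal coordinates -/

theorem toMv_mul {ι : Type} (P Q : Polynomial (Polynomial ℂ)) (i j : ι) :
    toMv (P * Q) i j = toMv P i j * toMv Q i j := by
  unfold toMv
  rw [Polynomial.eval₂_mul]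

theorem toMv_pow {ι : Type} (P : Polynomial (Polynomial ℂ)) (n : ℕ) (i j : ι) :
    toMv (P ^ n) i j = toMv P i j ^ n := by
  unfold toMv
  rw [Polynomial.eval₂_pow]

/-- Outside of a countable set related coordinates which are equal somewhere are equal everywhere. -/
theorem exists_avoid (hR : Corr R G) : ∃ B : Set ℂ, B.Countable ∧ G ⊆ B ∧
    ∀ (ι : Type) [Fintype ι] (Y : Set (ι → ℂ)), IsVar Y → ∀ i j : ι, (∀ y ∈ Y, R (y i) (y j)) →
      ∀ u ∈ Y, u i = u j → u i ∉ B → ∀ y ∈ Y, y i = y j := by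
  classical
  obtain ⟨P, hPm, hP⟩ := hR.poly
  have hfac : ∀ m, ∃ (e : ℕ) (Q : Polynomial (Polynomial ℂ)),
      P m = (Polynomial.X - Polynomial.C Polynomial.X) ^ e * Q ∧ Q.eval Polynomial.X ≠ 0 := by
    intro m
    obtain ⟨Q, h1, h2⟩ := Polynomial.exists_eq_pow_rootMultiplicity_mul_and_not_dvd (P m)
      (hPm m).ne_zero (Polynomial.X : Polynomial ℂ)
    refine ⟨_, Q, h1, fun h0 => h2 ?_⟩
    rw [Polynomial.dvd_iff_isRoot]
    exact h0
  choose e Q hPQ hQ using hfac
  refine ⟨G ∪ ⋃ m, {x | (Q m).evalEval x x = 0}, ?_, Set.subset_union_left, ?_⟩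
  · refine hR.count.union (Set.countable_iUnion fun m => Set.Finite.countable ?_)
    refine (Polynomial.rootSet_finite ((Q m).eval Polynomial.X) ℂ).subset ?_
    intro x hx
    rw [Polynomial.mem_rootSet]
    refine ⟨hQ m, ?_⟩
    rw [Polynomial.coe_aeval_eq_eval]
    have h1 : (Q m).evalEval x x = ((Q m).eval Polynomial.X).eval x := by
      unfold Polynomial.evalEval
      have h2 : (Polynomial.C x : Polynomial ℂ).eval x = (Polynomial.X : Polynomial ℂ).eval x := by
        simp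
      have h3 : ∀ F : Polynomial (Polynomial ℂ), (F.eval (Polynomial.C x)).eval x =
          (F.eval Polynomial.X).eval x := by
        intro F
        induction F using Polynomial.induction_on' with
        | add p q hp hq => rw [Polynomial.eval_add, Polynomial.eval_add, Polynomial.eval_add,
            Polynomial.eval_add, hp, hq]
        | monomial n a => simp
      exact h3 (Q m)
    rw [← h1]
    exact hx
  · intro ι _ Y hY i j hrel u hu hij huB y hy
    have hp : (idealOf Y).IsPrime := hY.irred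
    obtain ⟨m, hm⟩ : ∃ m, toMv (P m) i j ∈ idealOf Y := by
      by_contra hcon
      push Not at hcon
      obtain ⟨y, hy, h1⟩ := exists_veryGeneral hY (Set.range fun m => toMv (P m) i j)
        (Set.countable_range _) (by rintro _ ⟨m, rfl⟩; exact hcon m)
      obtain ⟨m, hm⟩ := (hP _ _).1 (hrel y hy)
      apply h1 _ ⟨m, rfl⟩
      rw [eval_toMv]
      exact hm
    rw [hPQ m, toMv_mul, toMv_pow] at hm
    rcases hp.mem_or_mem hm with h1 | h1
    · have h2 := mem_idealOf.1 (hp.mem_of_pow_mem _ h1) y hy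
      rw [eval_toMv] at h2
      simp only [Polynomial.evalEval, Polynomial.eval_sub, Polynomial.eval_X, Polynomial.eval_C]
        at h2
      linear_combination -h2
    · exfalso
      apply huB
      right
      refine Set.mem_iUnion.2 ⟨m, ?_⟩
      have h2 := mem_idealOf.1 h1 u hu
      rw [eval_toMv, ← hij] at h2
      exact h2

/-! ### The numbers of classes -/

theorem ncl_lt_of_spec {ι : Type} [Fintype ι] (hR : Rel R G) {x y : ι → ℂ}
    (h1 : ∀ i j, R (x i) (x j) → R (y i) (y j)) (h2 : ∀ i, x i ∈ G → y i ∈ G) {i : ι}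
    (hi : x i ∉ G) (hi' : y i ∈ G) : ncl R G y + 1 ≤ ncl R G x := by
  classical
  have h := ncl_add_card_le hR h1 h2 (K := {i}) (by
    constructor
    · intro j hj
      rw [Finset.mem_singleton.1 hj]
      exact hi
    · intro j hj k hk _
      rw [Finset.mem_singleton.1 hj, Finset.mem_singleton.1 hk]) (by
    intro j hj
    rw [Finset.mem_singleton.1 hj]
    exact hi')
  rwa [Finset.card_singleton] at h

theorem ncl_lt_of_rel {ι : Type} [Fintype ι] (hR : Rel R G) {x y : ι → ℂ}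
    (h1 : ∀ i j, R (x i) (x j) → R (y i) (y j)) (h2 : ∀ i, x i ∈ G → y i ∈ G) {i j : ι}
    (hij : ¬ R (x i) (x j)) (hij' : R (y i) (y j)) (hnot : ¬ (x i ∈ G ∧ x j ∈ G)) :
    ncl R G y + 1 ≤ ncl R G x := by
  classical
  by_cases hyi : y i ∈ G
  · have hyj : y j ∈ G := hR.sat _ _ hyi hij'
    by_cases hxi : x i ∈ G
    · exact ncl_lt_of_spec hR h1 h2 (fun h => hnot ⟨hxi, h⟩) hyj
    · exact ncl_lt_of_spec hR h1 h2 hxi hyi
  · have hyj : y j ∉ G := fun h => hyi (hR.sat _ _ h (hR.equiv.symm hij'))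
    obtain ⟨T, hT0, hT, -, hTn⟩ := exists_transversal (x := y) (M := {i}) hR (by
      constructor
      · intro j hj
        rw [Finset.mem_singleton.1 hj]
        exact hyi
      · intro j hj k hk _
        rw [Finset.mem_singleton.1 hj, Finset.mem_singleton.1 hk])
    have hiT : i ∈ T := hT0 (Finset.mem_singleton_self i)
    have hjT : j ∉ T := by
      intro h
      apply hij
      rw [hT.2 i hiT j h hij']
      exact hR.equiv.refl _
    have h3 : Ind R G x (insert j T) := by
      have h4 : ∀ a ∈ T, ¬ R (x a) (x j) := by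
        intro a ha hr
        have h5 := hR.equiv.trans (h1 a j hr) (hR.equiv.symm hij')
        rw [hT.2 a ha i hiT h5] at hr
        exact hij hr
      constructor
      · intro a ha
        rcases Finset.mem_insert.1 ha with rfl | ha
        · exact fun h => hyj (h2 _ h)
        · exact fun h => hT.1 a ha (h2 _ h)
      · intro a ha b hb hab
        rcases Finset.mem_insert.1 ha with ha | ha <;> rcases Finset.mem_insert.1 hb with hb | hb
        · rw [ha, hb]
        · rw [ha] at hab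
          exact absurd (hR.equiv.symm hab) (h4 b hb)
        · rw [hb] at hab
          exact absurd hab (h4 a ha)
        · exact hT.2 a ha b hb (h1 a b hab)
    have h4 := card_le_ncl hR h3
    rw [Finset.card_insert_of_notMem hjT, hTn] at h4
    exact h4

/-! ### Closed subsets -/

section Krull

variable {κ : Type} [Fintype κ]

/-- the principal ideal theorem -/
theorem krull_step {Y U : Set (κ → ℂ)} (hY : IsVar Y) (hU : IsVar U) (h : U ⊆ Y)
    {f : MvPolynomial κ ℂ} (hf : f ∈ idealOf U) :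
    ∃ Y', IsVar Y' ∧ U ⊆ Y' ∧ Y' ⊆ Y ∧ f ∈ idealOf Y' ∧ dim Y ≤ dim Y' + 1 := by
  classical
  have hYp : (idealOf Y).IsPrime := hY.irred
  have hUp : (idealOf U).IsPrime := hU.irred
  have hle : idealOf Y ⊔ Ideal.span {f} ≤ idealOf U := by
    rw [sup_le_iff]
    refine ⟨idealOf_mono h, ?_⟩
    rw [Ideal.span_le, Set.singleton_subset_iff]
    exact hf
  obtain ⟨q, hq, hqU⟩ := Ideal.exists_minimalPrimes_le hle
  have hqp : q.IsPrime := hq.1.1
  have hYq : idealOf Y ≤ q := le_sup_left.trans hq.1.2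
  have hfq : f ∈ q := hq.1.2 ((le_sup_right : Ideal.span {f} ≤ idealOf Y ⊔ Ideal.span {f})
    (Ideal.mem_span_singleton_self f))
  set Y' : Set (κ → ℂ) := {y | ∀ g ∈ q, eval y g = 0} with hY'
  have hI : idealOf Y' = q := by
    apply le_antisymm
    · intro g hg
      rw [mem_idealOf] at hg
      have h1 : g ∈ vanishingIdeal ℂ (zeroLocus ℂ q) := by
        rw [mem_vanishingIdeal_iff]
        intro y hy
        rw [mem_zeroLocus_iff] at hy
        rw [aeval_eq_eval]
        exact hg y fun p hp => by rw [← aeval_eq_eval]; exact hy p hp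
      rwa [vanishingIdeal_zeroLocus_eq_radical, hqp.radical] at h1
    · intro g hg
      rw [mem_idealOf]
      exact fun y hy => hy g hg
  have hYi : IsVar Y' := by
    refine ⟨?_, fun x hx => ?_⟩
    · unfold Irred
      rw [hI]
      exact hqp
    · rw [hI] at hx
      exact hx
  refine ⟨Y', hYi, fun u hu g hg => mem_idealOf.1 (hqU hg) u hu, ?_, by rw [hI]; exact hfq, ?_⟩
  · apply hY.subset_of_ideal
    rw [hI]
    exact hYq
  · have h1 := R452.SZ.trdeg_le_of_minimalPrimes (K := ℂ) (idealOf Y) q f hq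
    have h2 := trdeg_eq_dim hYi.irred
    rw [hI] at h2
    rw [trdeg_eq_dim hY.irred, h2] at h1
    exact_mod_cast h1

/-- Several equations. -/
theorem krull_finset {σ : Type} (s : Finset σ) (f : σ → MvPolynomial κ ℂ) {Y U : Set (κ → ℂ)}
    (hY : IsVar Y) (hU : IsVar U) (h : U ⊆ Y) (hf : ∀ i ∈ s, f i ∈ idealOf U) :
    ∃ Y', IsVar Y' ∧ U ⊆ Y' ∧ Y' ⊆ Y ∧ (∀ i ∈ s, f i ∈ idealOf Y') ∧
      dim Y ≤ dim Y' + s.card := by
  classical
  induction s using Finset.induction_on with
  | empty => exact ⟨Y, hY, h, subset_rfl, fun i hi => absurd hi (Finset.notMem_empty i), by simp⟩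
  | insert i s hi ih =>
    obtain ⟨Y1, h1, h2, h3, h4, h5⟩ := ih fun j hj => hf j (Finset.mem_insert_of_mem hj)
    obtain ⟨Y2, g1, g2, g3, g4, g5⟩ := krull_step h1 hU h2 (hf i (Finset.mem_insert_self i s))
    refine ⟨Y2, g1, g2, g3.trans h3, ?_, ?_⟩
    · intro j hj
      rcases Finset.mem_insert.1 hj with rfl | hj
      · exact g4
      · exact idealOf_mono g3 (h4 j hj)
    · rw [Finset.card_insert_of_notMem hi]
      omega

/-- All relations between the coordinates on `U` hold on `Y`. -/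
def Full (R : ℂ → ℂ → Prop) (G : Set ℂ) (U Y : Set (κ → ℂ)) : Prop :=
  (∀ i j, (∀ u ∈ U, R (u i) (u j)) → ∀ y ∈ Y, R (y i) (y j)) ∧
    ∀ i, ∀ a ∈ G, (∀ u ∈ U, u i = a) → ∀ y ∈ Y, y i = a

theorem gd_lt (hR : Corr R G) {Y Y' : Set (κ → ℂ)} (hY : IsVar Y) (hY' : IsVar Y')
    (hsub : Y' ⊆ Y) {y0 : κ → ℂ} (h0 : Gen R G Y y0)
    (h : (∃ i j, ¬ R (y0 i) (y0 j) ∧ (∀ y ∈ Y', R (y i) (y j)) ∧ ¬ (y0 i ∈ G ∧ y0 j ∈ G)) ∨
      ∃ i, y0 i ∉ G ∧ ∀ y ∈ Y', y i ∈ G) : gd R G Y' + 1 ≤ gd R G Y := by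
  obtain ⟨y1, g0⟩ := exists_gen' hR hY'
  rw [← h0.ncl_eq hR.toRel, ← g0.ncl_eq hR.toRel]
  have h1 : ∀ i j, R (y0 i) (y0 j) → R (y1 i) (y1 j) := fun i j hij => h0.rel' hij (hsub g0.mem)
  have h2 : ∀ i, y0 i ∈ G → y1 i ∈ G := fun i hi => h0.spec' hi (hsub g0.mem)
  rcases h with ⟨i, j, h3, h4, h5⟩ | ⟨i, h3, h4⟩
  · exact ncl_lt_of_rel hR.toRel h1 h2 h3 (h4 y1 g0.mem) h5
  · exact ncl_lt_of_spec hR.toRel h1 h2 h3 (h4 y1 g0.mem)

/-- The intersection of `Y` with the smallest special subvariety which contains `U`. -/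
theorem exists_full (hR : Corr R G) {U : Set (κ → ℂ)} (hU : IsVar U) (n : ℕ) :
    ∀ Y : Set (κ → ℂ), IsVar Y → U ⊆ Y → gd R G Y ≤ n →
      ∃ Y', IsVar Y' ∧ U ⊆ Y' ∧ Y' ⊆ Y ∧ Full R G U Y' ∧
        dim Y + gd R G Y' ≤ dim Y' + gd R G Y := by
  classical
  induction n using Nat.strong_induction_on with
  | _ n ih =>
    intro Y hY hUY hn
    by_cases hfull : Full R G U Y
    · exact ⟨Y, hY, hUY, subset_rfl, hfull, le_rfl⟩
    obtain ⟨y0, h0⟩ := exists_gen' hR hY
    obtain ⟨u0, k0⟩ := exists_gen' hR hU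
    have hne : ∃ f ∈ idealOf U, ∀ Y', IsVar Y' → Y' ⊆ Y → f ∈ idealOf Y' →
        gd R G Y' + 1 ≤ gd R G Y := by
      unfold Full at hfull
      rw [not_and_or] at hfull
      rcases hfull with hf | hf
      · push Not at hf
        obtain ⟨i, j, h1, y, hy, h2⟩ := hf
        obtain ⟨P, -, h3, h4⟩ := k0.rel i j (h1 u0 k0.mem)
        refine ⟨_, h4, fun Y' hY' hsub hfY' => gd_lt hR hY hY' hsub h0 (Or.inl ⟨i, j, ?_, ?_, ?_⟩)⟩
        · exact fun h => h2 (h0.rel' h hy)
        · intro y' hy'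
          apply h3
          rw [← eval_toMv]
          exact mem_idealOf.1 hfY' y' hy'
        · rintro ⟨hi, hj⟩
          obtain ⟨a, -, ha⟩ := h0.spec i hi
          obtain ⟨b, -, hb⟩ := h0.spec j hj
          apply h2
          rw [ha y hy, hb y hy, ← ha u0 (hUY k0.mem), ← hb u0 (hUY k0.mem)]
          exact h1 u0 k0.mem
      · push Not at hf
        obtain ⟨i, a, ha, h1, y, hy, h2⟩ := hf
        refine ⟨MvPolynomial.X i - C a, ?_, fun Y' hY' hsub hfY' =>
          gd_lt hR hY hY' hsub h0 (Or.inr ⟨i, ?_, ?_⟩)⟩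
        · rw [mem_idealOf]
          intro u hu
          simp [h1 u hu]
        · intro hi
          obtain ⟨b, -, hb⟩ := h0.spec i hi
          apply h2
          rw [hb y hy, ← hb u0 (hUY k0.mem)]
          exact h1 u0 k0.mem
        · intro y' hy'
          have h3 := mem_idealOf.1 hfY' y' hy'
          rw [map_sub, eval_X, eval_C, sub_eq_zero] at h3
          rw [h3]
          exact ha
    obtain ⟨f, hfU, hf⟩ := hne
    obtain ⟨Y1, g1, g2, g3, g4, g5⟩ := krull_step hY hU hUY hfU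
    have g6 := hf Y1 g1 g3 g4
    obtain ⟨Y2, k1, k2, k3, k4, k5⟩ := ih (gd R G Y1) (by omega) Y1 g1 g2 le_rfl
    exact ⟨Y2, k1, k2, k3.trans g3, k4, by omega⟩

end Krull

end Pool.Agent.T6.H15.MS
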