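import Pool.Agent.T6.H15.MS.Main

/-!
# Finitely many optimal subvarieties
-/

set_option autoImplicit false

open MvPolynomial

namespace Pool.Agent.T6.H15.MS

open Pool.Agent.T6.H15.ZP Pool.Agent.T6.H15.MZ

/-- Each closed irreducible subset of `V` is contained in one of finitely many, whose defect is at
most the same. -/
def Opt (R : ℂ → ℂ → Prop) (G : Set ℂ) {ι : Type} (V : Set (ι → ℂ)) : Prop :=
  ∃ 𝒴 : Set (Set (ι → ℂ)), 𝒴.Finite ∧ (∀ Y ∈ 𝒴, IsVar Y ∧ Y ⊆ V) ∧
    ∀ X : Set (ι → ℂ), IsVar X → X ⊆ V → ∃ Y ∈ 𝒴, X ⊆ Y ∧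
      gd R G Y + dim X ≤ gd R G X + dim Y

variable {R : ℂ → ℂ → Prop} {G : Set ℂ} {ι : Type} [Fintype ι]

theorem opt_step (hR : Corr R G) {V : Set (ι → ℂ)} (hV : IsVar V) (hd : ¬ Dns R G V (gd R G V) 1)
    (ih : ∀ Z : Set (ι → ℂ), Z ⊆ V → IsVar Z → dim Z < dim V → Opt R G Z) : Opt R G V := by
  classical
  unfold Dns at hd
  push Not at hd
  obtain ⟨f, hf, hall⟩ := hd
  set U : Set (ι → ℂ) := Bad R G V with hU
  have hUV : U ⊆ V := fun x hx => hx.1
  have hfU : f ∈ idealOf U := by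
    rw [mem_idealOf]
    rintro x ⟨hx, h1⟩
    exact hall x hx h1
  have hvan : vanishingIdeal ℂ U = idealOf U := by
    ext p
    rw [mem_vanishingIdeal_iff, mem_idealOf]
    simp only [aeval_eq_eval]
  have hfin : (idealOf U).minimalPrimes.Finite :=
    Ideal.finite_minimalPrimes_of_isNoetherianRing _ _
  let piece : Ideal (MvPolynomial ι ℂ) → Set (ι → ℂ) := fun P => {x | x ∈ U ∧ ∀ p ∈ P, eval x p = 0}
  have hpiece : ∀ P ∈ (idealOf U).minimalPrimes, idealOf (piece P) = P := by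
    intro P hP
    apply le_antisymm
    · intro p hp
      by_contra hpP
      rw [← hvan] at hP
      obtain ⟨z, hz, h1, h2⟩ := Helper834.EC.minprime_pt U P hP p hpP
      rw [mem_idealOf] at hp
      apply h2
      rw [aeval_eq_eval]
      exact hp z ⟨hz, fun q hq => by rw [← aeval_eq_eval]; exact h1 q hq⟩
    · intro p hp
      rw [mem_idealOf]
      exact fun x hx => hx.2 p hp
  have hvar : ∀ P ∈ (idealOf U).minimalPrimes, IsVar (zcl (piece P)) := by
    intro P hP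
    apply isVar_zcl
    unfold Irred
    rw [hpiece P hP]
    exact hP.1.1
  have hideal : ∀ P ∈ (idealOf U).minimalPrimes, idealOf (zcl (piece P)) = P := by
    intro P hP
    rw [idealOf_zcl, hpiece P hP]
  have hsub : ∀ P ∈ (idealOf U).minimalPrimes, zcl (piece P) ⊆ V := by
    intro P hP
    apply hV.subset_of_ideal
    rw [hideal P hP]
    exact (idealOf_mono hUV).trans hP.1.2
  have hcov : ∀ P ∈ (idealOf U).minimalPrimes, Opt R G (zcl (piece P)) := by
    intro P hP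
    apply ih _ (hsub P hP) (hvar P hP)
    apply dim_lt (hvar P hP).irred hV.irred (idealOf_mono (hsub P hP)) (f := f)
    · rw [hideal P hP]
      exact hP.1.2 hfU
    · exact hf
  choose! 𝒴 h𝒴 using hcov
  refine ⟨insert V (⋃ P ∈ (idealOf U).minimalPrimes, 𝒴 P),
    (hfin.biUnion fun P hP => (h𝒴 P hP).1).insert V, ?_, ?_⟩
  · rintro Y (rfl | hY)
    · exact ⟨hV, subset_rfl⟩
    · simp only [Set.mem_iUnion] at hY
      obtain ⟨P, hP, hY⟩ := hY
      exact ⟨((h𝒴 P hP).2.1 Y hY).1, ((h𝒴 P hP).2.1 Y hY).2.trans (hsub P hP)⟩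
  · intro X hX hXV
    by_cases hbig : gd R G V + dim X ≤ gd R G X + dim V
    · exact ⟨V, Or.inl rfl, hXV, hbig⟩
    · have hXU : idealOf U ≤ idealOf X := by
        intro g hg
        by_contra hg'
        obtain ⟨x, hx, h1, h2⟩ := exists_point_ncl hR hX hg'
        apply h2
        apply mem_idealOf.1 hg
        refine ⟨hXV hx, ?_⟩
        omega
      have hXp : (idealOf X).IsPrime := hX.irred
      obtain ⟨P, hP, hPX⟩ := Ideal.exists_minimalPrimes_le hXU
      have hXP : X ⊆ zcl (piece P) := by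
        apply (hvar P hP).subset_of_ideal
        rw [hideal P hP]
        exact hPX
      obtain ⟨Y, hY, h1, h2⟩ := (h𝒴 P hP).2.2 X hX hXP
      refine ⟨Y, Or.inr ?_, h1, h2⟩
      simp only [Set.mem_iUnion]
      exact ⟨P, hP, hY⟩

theorem opt_of_not_dns (hR : Corr R G) {V0 : Set (ι → ℂ)}
    (H : ∀ Z : Set (ι → ℂ), Z ⊆ V0 → IsVar Z → ¬ Dns R G Z (gd R G Z) 1) {V : Set (ι → ℂ)}
    (hVV : V ⊆ V0) (hV : IsVar V) : Opt R G V := by
  induction hd : dim V using Nat.strong_induction_on generalizing V with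
  | _ d ih =>
    apply opt_step hR hV (H V hVV hV)
    intro Z hZV hZ hlt
    exact ih _ (by omega) (hZV.trans hVV) hZ rfl

theorem isVar_surf (κ : Type) [Fintype κ] : IsVar (surf κ) := by
  have h := isVar_graph (ι := κ × Fin 2) (τ := κ × Fin 4) isVar_univ
    (fun z => out (X (z.1, 0), X (z.1, 1)) z.2) (fun x => (x.1, if x.2 = 0 then 0 else 1)) (by
      rintro w - ⟨i, l⟩
      have hl : l = 0 ∨ l = 1 := by
        fin_cases l <;> simp
      rcases hl with rfl | rfl
      · simp [out_zero]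
      · simp [out_one])
  have h2 : surf κ = (fun (w : κ × Fin 2 → ℂ) (z : κ × Fin 4) =>
      eval w (out (X (z.1, 0), X (z.1, 1)) z.2)) '' Set.univ := by
    ext y
    constructor
    · intro hy
      refine ⟨fun x => y (x.1, if x.2 = 0 then 0 else 1), Set.mem_univ _, ?_⟩
      funext z
      obtain ⟨i, l⟩ := z
      symm
      refine surf_out hy ?_ ?_ l
      · rw [eval_X]
        simp
      · rw [eval_X]
        simp
    · rintro ⟨w, -, rfl⟩ i
      constructor
      · simp only [out_zero, out_one, out_two, map_add]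
      · simp only [out_zero, out_one, out_three, map_mul]
  rw [h2]
  exact h

theorem ptFin_of_opt {κ : Type} [Fintype κ] (h : Opt R G (surf κ)) (n : ℕ) : PtFin R G κ n := by
  obtain ⟨𝒴, h1, h2, h3⟩ := h
  refine ⟨𝒴, h1, h2, fun z hz => ?_⟩
  obtain ⟨Y, hY, h4, h5⟩ := h3 {z} (isVar_singleton z) (Set.singleton_subset_iff.2 hz)
  rw [gd_singleton, dim_singleton] at h5
  exact ⟨Y, hY, h4 rfl, by omega⟩

theorem not_dns_of_finMax (hR : Corr R G) {Z : Set (ι → ℂ)} (hZ : IsVar Z) (H : FinMax R G Z) :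
    ¬ Dns R G Z (gd R G Z) 1 := by
  intro hd
  obtain ⟨f, hf, hfv⟩ := not_dense_of_finOff hR hZ (finOff_of_finMax hZ H)
  obtain ⟨x, hx, h1, h2⟩ := hd f hf
  exact h2 (hfv x ⟨hx, h1⟩)

/-- The condition for subvarieties of all powers of the line. -/
theorem not_dns_of_forall (hR : Corr R G)
    (H : ∀ (n : ℕ) (S : Set (Fin n → ℂ)), IsVar S → FinMax R G S) {Z : Set (ι → ℂ)}
    (hZ : IsVar Z) : ¬ Dns R G Z (gd R G Z) 1 := by
  have h0 : Filter.Tendsto (fun n : ℕ => (((fun _ => 1 : ℕ → ℕ) n : ℕ) : ℝ) / n) Filter.atTop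
      (nhds 0) := by
    have := tendsto_one_div_atTop_nhds_zero_nat (𝕜 := ℝ)
    simpa using this
  have h1 := ((MZ.main hR (fun _ => 1) h0 (fun _ => le_rfl)).out 0 4).1 H
  have h2 : (0 : ℝ) < (Fintype.card ι : ℝ) + 1 := by positivity
  refine not_dns hR (ε := 1 / ((Fintype.card ι : ℝ) + 1)) (by positivity)
    (h1 _ (by positivity)) ?_ hZ
  rw [div_mul_eq_mul_div, one_mul, div_lt_one h2]
  linarith

/-- **Main theorem.** -/
theorem main (hR : Corr R G) : List.TFAE [
    ∀ (n : ℕ) (S : Set (Fin n → ℂ)), IsVar S → FinMax R G S,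
    ∀ (K : ℕ) (S : Set (Fin K × Fin 4 → ℂ)), IsVar S → S ⊆ surf (Fin K) → FinMax R G S,
    ∀ K : ℕ, Opt R G (surf (Fin K)),
    ∀ ε : ℝ, 0 < ε → ∀ m : ℕ, ∃ K, m ≤ K ∧ PtFin R G (Fin K) ⌊ε * K⌋₊] := by
  tfae_have 1 → 2 := fun H K S hS _ =>
    finMax_of_not_dns hR (fun Z hZ => not_dns_of_forall hR H hZ) hS
  tfae_have 2 → 3 := by
    intro H K
    exact opt_of_not_dns hR (V0 := surf (Fin K))
      (fun Z hZs hZ => not_dns_of_finMax hR hZ (H K Z hZ hZs)) subset_rfl (isVar_surf _)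
  tfae_have 3 → 4 := fun H ε _ m => ⟨m, le_rfl, ptFin_of_opt (H m) _⟩
  tfae_have 4 → 1 := fun H n S hS => finMax_of_many hR H hS
  tfae_finish

end Pool.Agent.T6.H15.MS
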