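import Pool.Agent.T6.H15.MS.Bound

/-!
# Points on powers of the surface and points with few classes on all closed sets
-/

set_option autoImplicit false

open MvPolynomial

namespace Pool.Agent.T6.H15.MS

open Pool.Agent.T6.H15.ZP Pool.Agent.T6.H15.MZ

/-- Finitely many closed subsets of the power of the surface suffice for its points, up to the
error `n`. -/
def PtFin (R : ℂ → ℂ → Prop) (G : Set ℂ) (κ : Type) (n : ℕ) : Prop :=
  ∃ 𝒴 : Set (Set (κ × Fin 4 → ℂ)), 𝒴.Finite ∧ (∀ Y ∈ 𝒴, IsVar Y ∧ Y ⊆ surf κ) ∧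
    ∀ z ∈ surf κ, ∃ Y ∈ 𝒴, z ∈ Y ∧ gd R G Y ≤ ncl R G z + dim Y + n

variable {R : ℂ → ℂ → Prop} {G : Set ℂ}

theorem gd_img_equiv (hR : Rel R G) {ι κ : Type} [Fintype ι] [Fintype κ] (e : κ ≃ ι)
    (X : Set (ι → ℂ)) : gd R G (img e X) = gd R G X := by
  unfold gd img
  rw [Set.image_image]
  congr 1
  apply Set.image_congr
  intro x _
  exact ncl_equiv e hR x

theorem surf_comp {κ κ' : Type} {z : κ × Fin 4 → ℂ} (hz : z ∈ surf κ) (e : κ' → κ) :
    (fun x : κ' × Fin 4 => z (e x.1, x.2)) ∈ surf κ' := fun i => hz (e i)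

theorem PtFin.equiv (hR : Rel R G) {κ κ' : Type} [Fintype κ] [Fintype κ'] (e : κ' ≃ κ) {n : ℕ}
    (h : PtFin R G κ n) : PtFin R G κ' n := by
  obtain ⟨𝒴, hfin, hY, hcov⟩ := h
  let E : κ' × Fin 4 ≃ κ × Fin 4 := Equiv.prodCongr e (Equiv.refl _)
  refine ⟨(fun Y => img E Y) '' 𝒴, hfin.image _, ?_, ?_⟩
  · rintro _ ⟨Y, hY', rfl⟩
    obtain ⟨h1, h2⟩ := hY Y hY'
    refine ⟨isVar_img E h1, ?_⟩
    rintro _ ⟨y, hy, rfl⟩
    exact surf_comp (h2 hy) e
  · intro z hz
    obtain ⟨Y, hY', h1, h2⟩ := hcov _ (surf_comp hz e.symm)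
    refine ⟨_, ⟨Y, hY', rfl⟩, ⟨_, h1, ?_⟩, ?_⟩
    · funext x
      obtain ⟨i, l⟩ := x
      show z (e.symm (e i), l) = z (i, l)
      rw [Equiv.symm_apply_apply]
    · dsimp only
      rw [gd_img_equiv hR, dim_img_equiv E (hY Y hY').1]
      have h3 := ncl_comp_le hR z (fun x : κ × Fin 4 => (e.symm x.1, x.2))
      exact h2.trans (by omega)

section

variable {μ κ ι T Q : Type} {B : Set ℂ} {V : Set (κ → ℂ)}
  [Fintype μ] [Fintype κ] [Fintype ι] [Fintype T] [Fintype Q] {k : ℕ} {c : μ → ℂ}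
  {β : μ → ι} {copy : T → κ → ι} {idx : ι → μ ⊕ (T × κ)} {W : Set (ι → ℂ)}
  {E : Enc B V} {s : Q → ℂ} {γ : μ → Q}

theorem count (hR : Corr R G) (hB : Avoid R B) (hP : Pow R G k c V β copy idx W)
    (hγ : Par c E s γ) {n : ℕ} (h : PtFin R G (Ix Q T E) n) : k ≤ 2 * Fintype.card Q + n := by
  classical
  obtain ⟨𝒴, hfin, hY, hcov⟩ := h
  have hU : IsVar (phi s copy E '' W) := isVar_image hP hγ
  have hUp : (idealOf (phi s copy E '' W)).IsPrime := hU.irred
  have hmain : ∃ Y ∈ 𝒴, phi s copy E '' W ⊆ Y ∧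
      gd R G Y + dim W + k ≤ gd R G (phi s copy E '' W) + dim Y + n := by
    by_contra hcon
    push Not at hcon
    have h1 : ∀ Y, Y ∈ 𝒴 ∧ gd R G Y + dim W + k ≤ gd R G (phi s copy E '' W) + dim Y + n →
        ∃ f, f ∈ idealOf Y ∧ f ∉ idealOf (phi s copy E '' W) := by
      rintro Y ⟨hY', h2⟩
      by_contra hall
      push Not at hall
      have h3 := hcon Y hY' ((hY Y hY').1.subset_of_ideal hall)
      omega
    choose! f hf hf' using h1
    let 𝒵 := hfin.toFinset.filter fun Y =>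
      gd R G Y + dim W + k ≤ gd R G (phi s copy E '' W) + dim Y + n
    have h2 : (∏ Y ∈ 𝒵, f Y) ∉ idealOf (phi s copy E '' W) := by
      intro hmem
      obtain ⟨Y, hYm, h3⟩ := (hUp.prod_mem_iff).1 hmem
      rw [Finset.mem_filter, Set.Finite.mem_toFinset] at hYm
      exact hf' Y hYm h3
    have h3 : bind₁ (fmap s copy E) (∏ Y ∈ 𝒵, f Y) ∉ idealOf W := by
      intro hmem
      exact h2 (mem_ideal_poly.2 hmem)
    obtain ⟨w, hw, h4, h5⟩ := hP.pow.dense _ h3
    rw [eval_bind] at h5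
    obtain ⟨Y, hY', h6, h7⟩ := hcov _ (phi_mem s copy E w)
    have h8 := ncl_image (s := s) (E := E) (γ := γ) hR hP hγ hw
    apply h5
    rw [map_prod]
    have h9 : Y ∈ 𝒴 ∧ gd R G Y + dim W + k ≤ gd R G (phi s copy E '' W) + dim Y + n :=
      ⟨hY', by omega⟩
    refine Finset.prod_eq_zero (i := Y) ?_ (mem_idealOf.1 (hf Y h9) _ h6)
    rw [Finset.mem_filter, Set.Finite.mem_toFinset]
    exact h9
  obtain ⟨Y, hY', h1, h2⟩ := hmain
  have h3 := upper hR hB hP hγ (hY Y hY').1 (hY Y hY').2 h1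
  omega

end

/-- The assumption on the points of the powers of the surface. -/
def Many (R : ℂ → ℂ → Prop) (G : Set ℂ) : Prop :=
  ∀ ε : ℝ, 0 < ε → ∀ m : ℕ, ∃ K, m ≤ K ∧ PtFin R G (Fin K) ⌊ε * K⌋₊

theorem no_base (hR : Corr R G) (H : Many R G) {μ κ : Type} [Fintype μ] [Fintype κ] {c : μ → ℂ}
    {V : Set (κ → ℂ)} (hV : Base R G c V) : False := by
  classical
  obtain ⟨B, hBc, -, hBav⟩ := exists_avoid hR
  obtain ⟨E⟩ := exists_enc hV.var hV.nonconst hBc
  have hκ : 0 < Fintype.card κ := by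
    rw [Nat.pos_iff_ne_zero]
    intro h0
    have : IsEmpty κ := Fintype.card_eq_zero_iff.1 h0
    obtain ⟨v0, hv0⟩ := hV.var.nonempty
    obtain ⟨v, hv, h1, -⟩ := hV.dense 1 (not_mem_of_eval hv0 (by simp))
    have h2 : Ind R G (Sum.elim c v) Finset.univ := by
      constructor
      · rintro (i | i) -
        · exact hV.cind.1 i (Finset.mem_univ i)
        · exact (IsEmpty.false i).elim
      · rintro (i | i) - (j | j) - hij
        · rw [hV.cind.2 i (Finset.mem_univ i) j (Finset.mem_univ j) hij]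
        · exact (IsEmpty.false j).elim
        · exact (IsEmpty.false i).elim
        · exact (IsEmpty.false i).elim
    rw [ncl_of_ind_univ hR.toRel h2, Fintype.card_sum] at h1
    omega
  have hAf : Fintype E.A := E.hA.fintype
  set P := Fintype.card (κ ⊕ E.S) with hPdef
  have hP0 : 0 < P := by
    rw [hPdef, Fintype.card_sum]
    omega
  set q0 := Fintype.card μ + Fintype.card E.A with hq0
  obtain ⟨K, hK, HK⟩ := H (1 / (2 * P)) (by positivity) (q0 + P * (5 * (q0 + P) + 1))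
  set k := (K - q0) / P with hk
  set j := (K - q0) % P with hj
  have hKeq : K = q0 + j + k * P := by
    have h1 := Nat.div_add_mod (K - q0) P
    rw [← hk, ← hj, mul_comm] at h1
    have h2 : q0 ≤ K := le_trans (Nat.le_add_right _ _) hK
    omega
  have hjP : j < P := Nat.mod_lt _ hP0
  have hkbig : 5 * (q0 + P) + 1 ≤ k := by
    rw [hk, Nat.le_div_iff_mul_le hP0, mul_comm]
    omega
  obtain ⟨ι, T, _, _, β, copy, idx, W, hW⟩ := exists_pow hR hV k
  let Q := μ ⊕ (E.A ⊕ Fin j)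
  let s : Q → ℂ := Sum.elim c (Sum.elim (fun a => (a : ℂ)) (fun _ => 2))
  have hγ : Par c E s Sum.inl := by
    refine ⟨fun m => rfl, fun a ha => ⟨Sum.inr (Sum.inl ⟨a, ha⟩), rfl⟩⟩
  have hcQ : Fintype.card Q = q0 + j := by
    show Fintype.card (μ ⊕ (E.A ⊕ Fin j)) = _
    rw [Fintype.card_sum, Fintype.card_sum, Fintype.card_fin, hq0]
    omega
  have hcard : Fintype.card (Ix Q T E) = K := by
    rw [Fintype.card_sum, Fintype.card_prod, hcQ, hW.cardT, ← hPdef, ← hKeq]
  have h1 := count hR hBav hW hγ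
    (PtFin.equiv hR.toRel (Fintype.equivFinOfCardEq hcard) HK)
  rw [hcQ] at h1
  set n := ⌊(1 / (2 * P) : ℝ) * K⌋₊ with hn
  have h2 : 2 * P * n ≤ K := by
    have h3 : (n : ℝ) ≤ (1 / (2 * P) : ℝ) * K := Nat.floor_le (by positivity)
    have h4 : (0 : ℝ) < 2 * P := by positivity
    have h5 : (2 * P * n : ℝ) ≤ K := by
      rw [one_div, inv_mul_eq_div, le_div_iff₀ h4] at h3
      linarith
    exact_mod_cast h5
  have h6 : P * k ≤ P * (5 * (q0 + j)) := by
    have h7 : q0 + j ≤ P * (q0 + j) := Nat.le_mul_of_pos_left _ hP0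
    have h8 : 2 * P * k ≤ 2 * P * (2 * (q0 + j) + n) := Nat.mul_le_mul_left _ h1
    nlinarith
  have h9 := Nat.le_of_mul_le_mul_left h6 hP0
  omega

theorem exists_base (hR : Corr R G) {ι : Type} [Fintype ι] {V : Set (ι → ℂ)} (hV : IsVar V)
    (hgen : ∃ v ∈ V, Ind R G v Finset.univ) (hd : Dns R G V (Fintype.card ι) 1) :
    ∃ (μ κ : Type) (_ : Fintype μ) (_ : Fintype κ) (c : μ → ℂ) (V' : Set (κ → ℂ)),
      Base R G c V' := by
  classical
  obtain ⟨x0, hx0, hxi⟩ := hgen
  let p : ι → Prop := fun i => ∃ a, ∀ x ∈ V, x i = a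
  have hpc : ∀ i, p i → ∀ x ∈ V, x i = x0 i := by
    rintro i ⟨a, ha⟩ x hx
    rw [ha x hx, ha x0 hx0]
  let c : {i // p i} → ℂ := fun i => x0 i
  set V' : Set ({i // ¬ p i} → ℂ) := img (fun k : {i // ¬ p i} => (k : ι)) V with hV'
  have hglue : ∀ x ∈ V, (fun i => if h : p i then c ⟨i, h⟩ else x i) = x := by
    intro x hx
    funext i
    by_cases h : p i
    · rw [dif_pos h]
      exact (hpc i h x hx).symm
    · rw [dif_neg h]
  have hvar : IsVar V' := by
    refine ⟨irred_img hV.irred, fun y hy => ?_⟩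
    have h1 : (fun i => if h : p i then c ⟨i, h⟩ else y ⟨i, h⟩) ∈ V := by
      apply hV.closed
      intro f hf
      set fc : MvPolynomial {i // ¬ p i} ℂ := aeval (fun i => if h : p i then
        (C (c ⟨i, h⟩) : MvPolynomial {i // ¬ p i} ℂ) else MvPolynomial.X ⟨i, h⟩) f with hfc
      have h2 : ∀ z : {i // ¬ p i} → ℂ, eval z fc =
          eval (fun i => if h : p i then c ⟨i, h⟩ else z ⟨i, h⟩) f := by
        intro z
        rw [hfc, ← aeval_eq_eval, ← aeval_eq_eval]
        have h3 : (aeval z).comp (aeval (fun i => if h : p i then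
            (C (c ⟨i, h⟩) : MvPolynomial {i // ¬ p i} ℂ) else MvPolynomial.X ⟨i, h⟩)) =
            (aeval (fun i => if h : p i then c ⟨i, h⟩ else z ⟨i, h⟩) :
              MvPolynomial ι ℂ →ₐ[ℂ] ℂ) := by
          ext i
          by_cases h : p i
          · simp [h]
          · simp [h]
        exact DFunLike.congr_fun h3 f
      rw [← h2]
      apply hy
      rw [mem_idealOf]
      rintro _ ⟨x, hx, rfl⟩
      rw [h2]
      have h4 := hglue x hx
      have h5 : (fun i => if h : p i then c ⟨i, h⟩ else x i) =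
        (fun i => if h : p i then c ⟨i, h⟩ else (fun k : {i // ¬ p i} => x (k : ι)) ⟨i, h⟩) := rfl
      rw [← h5, h4]
      exact mem_idealOf.1 hf x hx
    refine ⟨_, h1, ?_⟩
    funext k
    dsimp only
    rw [dif_neg k.2]
  refine ⟨{i // p i}, {i // ¬ p i}, inferInstance, inferInstance, c, V',
    hxi.comp Subtype.val_injective, hvar, ?_, ⟨_, ⟨x0, hx0, rfl⟩,
    hxi.comp Subtype.val_injective⟩, ?_⟩
  · intro k a
    by_contra hcon
    push Not at hcon
    exact k.2 ⟨a, fun x hx => hcon _ ⟨x, hx, rfl⟩⟩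
  · intro f hf
    rw [hV', mem_idealOf_img] at hf
    obtain ⟨x, hx, h1, h2⟩ := hd _ hf
    rw [eval_rename] at h2
    refine ⟨fun k : {i // ¬ p i} => x (k : ι), ⟨x, hx, rfl⟩, ?_, h2⟩
    have h3 : ncl R G (Sum.elim c (fun k : {i // ¬ p i} => x (k : ι))) ≤ ncl R G x := by
      have h4 : Sum.elim c (fun k : {i // ¬ p i} => x (k : ι)) =
          fun j => x (Sum.elim (fun i : {i // p i} => (i : ι))
            (fun k : {i // ¬ p i} => (k : ι)) j) := by
        funext j
        rcases j with j | j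
        · exact (hpc j j.2 x hx).symm
        · rfl
      rw [h4]
      exact ncl_comp_le hR.toRel x _
    have h5 : dim V' ≤ dim V := dim_img_le hV.irred
    have h6 := Fintype.card_subtype_compl p
    have h7 := Fintype.card_subtype_le p
    omega

/-- The points of excess at least one are not dense on any subvariety. -/
theorem not_dns_all (hR : Corr R G) (H : Many R G) {ι : Type} [Fintype ι] {V : Set (ι → ℂ)}
    (hV : IsVar V) : ¬ Dns R G V (gd R G V) 1 := by
  classical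
  intro hd
  obtain ⟨x0, h0⟩ := exists_gen' hR hV
  obtain ⟨T, -, hT, hTc, hTn⟩ :=
    exists_transversal hR.toRel (ind_empty (R := R) (G := G) x0)
  set X : Set (T → ℂ) := img (fun i : T => (i : ι)) V with hX
  have hcard : Fintype.card T = gd R G V := by
    rw [Fintype.card_coe, hTn, h0.ncl_eq hR.toRel]
  obtain ⟨μ, κ, _, _, c, V', hb⟩ := exists_base hR (ι := T) (isVar_zcl (irred_img hV.irred))
    (V := zcl X) (by
      refine ⟨_, subset_zcl X ⟨x0, h0.mem, rfl⟩, ?_⟩
      constructor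
      · intro i _
        exact hT.1 i i.2
      · intro i _ j _ hij
        exact Subtype.ext (hT.2 i i.2 j j.2 hij)) (by
      intro f hf
      rw [idealOf_zcl, hX, mem_idealOf_img] at hf
      obtain ⟨x, hx, h1, h2⟩ := hd _ hf
      rw [eval_rename] at h2
      refine ⟨fun i : T => x (i : ι), subset_zcl X ⟨x, hx, rfl⟩, ?_, h2⟩
      rw [dim_zcl, hcard]
      have h3 := ncl_comp_le hR.toRel x (fun i : T => (i : ι))
      have h4 : dim X ≤ dim V := dim_img_le hV.irred
      omega)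
  exact no_base hR H hb

theorem finMax_of_many (hR : Corr R G) (H : Many R G) {ι : Type} [Fintype ι] {S : Set (ι → ℂ)}
    (hS : IsVar S) : FinMax R G S := finMax_of_not_dns hR (fun _ hZ => not_dns_all hR H hZ) hS

end Pool.Agent.T6.H15.MS
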