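import Pool.Agent.T6.H15.MS.Chain

/-!
# Fibred powers with explicit coordinates
-/

set_option autoImplicit false

open MvPolynomial

namespace Pool.Agent.T6.H15.MS

open Pool.Agent.T6.H15.ZP Pool.Agent.T6.H15.MZ

variable {R : ℂ → ℂ → Prop} {G : Set ℂ}

/-- The fibred power `W` of `V` over `c`, whose copies of `V` are indexed by `T`. -/
structure Pow (R : ℂ → ℂ → Prop) (G : Set ℂ) {μ κ : Type} [Fintype μ] [Fintype κ] (k : ℕ)
    (c : μ → ℂ) (V : Set (κ → ℂ)) {ι T : Type} [Fintype ι]
    [Fintype T] (β : μ → ι) (copy : T → κ → ι) (idx : ι → μ ⊕ (T × κ))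
    (W : Set (ι → ℂ)) : Prop where
  pow : IsPow R G (Fintype.card κ) k c β W
  cardT : Fintype.card T = k
  inj : Function.Injective idx
  idxβ : ∀ i, idx (β i) = Sum.inl i
  idxc : ∀ t a, idx (copy t a) = Sum.inr (t, a)
  copies : ∀ w ∈ W, ∀ t, (fun a => w (copy t a)) ∈ V
  surj : ∀ t, ∀ v ∈ V, ∃ w ∈ W, (fun a => w (copy t a)) = v
  full : ∀ p : ι → ℂ, (∀ i, p (β i) = c i) → (∀ t, (fun a => p (copy t a)) ∈ V) → p ∈ W

theorem exists_pow (hR : Corr R G) {μ κ : Type} [Fintype μ] [Fintype κ] {c : μ → ℂ}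
    {V : Set (κ → ℂ)} (hV : Base R G c V) (k : ℕ) :
    ∃ (ι T : Type) (_ : Fintype ι) (_ : Fintype T) (β : μ → ι) (copy : T → κ → ι)
      (idx : ι → μ ⊕ (T × κ)) (W : Set (ι → ℂ)), Pow R G k c V β copy idx W := by
  classical
  induction k with
  | zero =>
    refine ⟨μ, Empty, inferInstance, inferInstance, fun i => i, fun t => t.elim,
      fun i => Sum.inl i, {c}, isPow_zero hR.toRel _ hV.cind, rfl, Sum.inl_injective, fun i => rfl,
      fun t => t.elim, fun w _ t => t.elim, fun t => t.elim, ?_⟩
    intro p hp _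
    exact funext hp
  | succ k ih =>
    obtain ⟨ι, T, _, _, β, copy, idx, W, hW⟩ := ih
    refine ⟨ι ⊕ κ, Option T, inferInstance, inferInstance, fun i => Sum.inl (β i),
      fun t a => match t with
        | none => Sum.inr a
        | some t => Sum.inl (copy t a),
      fun x => match x with
        | Sum.inl x => match idx x with
          | Sum.inl i => Sum.inl i
          | Sum.inr (t, a) => Sum.inr (some t, a)
        | Sum.inr a => Sum.inr (none, a),
      prodSet W V, isPow_succ hR hV rfl hW.pow, ?_, ?_, ?_, ?_, ?_, ?_, ?_⟩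
    · rw [Fintype.card_option, hW.cardT]
    · intro x y hxy
      rcases x with x | a <;> rcases y with y | b
      · congr 1
        apply hW.inj
        dsimp only at hxy
        rcases h1 : idx x with i | ⟨t, a⟩ <;> rcases h2 : idx y with j | ⟨t', b⟩ <;>
          rw [h1, h2] at hxy
        · rw [Sum.inl.injEq] at hxy
          rw [hxy]
        · exact absurd hxy (by simp)
        · exact absurd hxy (by simp)
        · rw [Sum.inr.injEq, Prod.mk.injEq, Option.some.injEq] at hxy
          rw [hxy.1, hxy.2]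
      · dsimp only at hxy
        rcases h1 : idx x with i | ⟨t, a⟩ <;> rw [h1] at hxy
        · exact absurd hxy (by simp)
        · exact absurd hxy (by simp)
      · dsimp only at hxy
        rcases h1 : idx y with i | ⟨t, b⟩ <;> rw [h1] at hxy
        · exact absurd hxy (by simp)
        · exact absurd hxy (by simp)
      · dsimp only at hxy
        rw [Sum.inr.injEq, Prod.mk.injEq] at hxy
        rw [hxy.2]
    · intro i
      dsimp only
      rw [hW.idxβ]
    · intro t a
      rcases t with - | t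
      · rfl
      · dsimp only
        rw [hW.idxc]
    · intro z hz t
      rcases t with - | t
      · exact hz.2
      · exact hW.copies _ hz.1 t
    · intro t v hv
      rcases t with - | t
      · obtain ⟨w, hw⟩ := hW.pow.var.nonempty
        exact ⟨Sum.elim w v, elim_mem hw hv, rfl⟩
      · obtain ⟨w, hw, h1⟩ := hW.surj t v hv
        obtain ⟨v', hv'⟩ := hV.var.nonempty
        exact ⟨Sum.elim w v', elim_mem hw hv', h1⟩
    · intro p hp hp'
      exact ⟨hW.full _ hp fun t => hp' (some t), hp' none⟩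

section

variable {μ κ ι T : Type} [Fintype μ] [Fintype κ] [Fintype ι] [Fintype T] {k : ℕ} {c : μ → ℂ}
  {V : Set (κ → ℂ)} {β : μ → ι} {copy : T → κ → ι} {idx : ι → μ ⊕ (T × κ)} {W : Set (ι → ℂ)}

theorem Pow.cases (hP : Pow R G k c V β copy idx W) (x : ι) :
    (∃ i, x = β i) ∨ ∃ t a, x = copy t a := by
  rcases h1 : idx x with i | ⟨t, a⟩
  · exact Or.inl ⟨i, hP.inj (by rw [h1, hP.idxβ])⟩
  · exact Or.inr ⟨t, a, hP.inj (by rw [h1, hP.idxc])⟩

end

end Pool.Agent.T6.H15.MS
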